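import Mathlib

/-!
The Riemann mapping theorem.  The first two steps follow the Mathlib file on the subject.
-/

set_option autoImplicit false

open Function Filter Metric Set Complex
open scoped Pointwise Topology ComplexConjugate

namespace Pool.Agent.P.MP_41df0b_an

theorem exists_injective_not_dense {U : Set ℂ} (hUo : IsOpen U)
    (hUc : IsSimplyConnected U) (hU : U ≠ univ) :
    ∃ f : ℂ → ℂ, Injective f ∧ ¬Dense (f '' U) ∧ ∀ z ∈ U, deriv f z ≠ 0 := by
  wlog hU₀ : 0 ∉ U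
  · rw [ne_univ_iff_exists_notMem] at hU
    rcases hU with ⟨a, ha⟩
    specialize this (hUo.vadd (-a)) (by simpa) (by simp [hU])
      (by simpa [mem_vadd_set_iff_neg_vadd_mem])
    rcases this with ⟨f, hf_inj, hf_dense, hdf⟩
    refine ⟨f ∘ (-a + ·), hf_inj.comp (add_right_injective (-a)), ?_, fun z hz ↦ ?_⟩
    · simpa only [← image_vadd, Set.image_image] using! hf_dense
    · simpa [Function.comp_def, deriv_comp_const_add] using hdf (-a + z) (mapsTo_image _ _ hz)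
  rcases exists_continuousOn_pow_eq hUc hUo continuousOn_id (by rwa [image_id]) two_ne_zero
    with ⟨f, hfc, hf_inv⟩
  replace hf_inv : LeftInverse (· ^ 2) f := hf_inv
  have hf₀ : ∀ z ∈ U, f z ≠ 0 := by
    intro z hz hfz
    simpa [hfz, (ne_of_mem_of_not_mem hz hU₀).symm] using hf_inv z
  have hdf : ∀ z ∈ U, HasStrictDerivAt f (2 * f z)⁻¹ z := by
    intro z hz
    apply HasStrictDerivAt.of_local_left_inverse
    · exact hfc.continuousAt <| hUo.mem_nhds hz
    · simpa using hasStrictDerivAt_pow 2 (f z)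
    · simpa using hf₀ z hz
    · exact .of_forall hf_inv
  refine ⟨f, hf_inv.injective, ?_, fun z hz ↦ ?_⟩
  · simp only [Dense, not_forall, mem_closure_iff_frequently, not_frequently]
    rcases hUc.nonempty with ⟨x, hx⟩
    use -f x
    have : f '' U ∈ 𝓝 (f x) := by
      rw [← (hdf x hx).map_nhds_eq (by simpa using hf₀ x hx)]
      exact Filter.image_mem_map <| hUo.mem_nhds hx
    rw [nhds_neg, eventually_neg]
    filter_upwards [this]
    rintro _ ⟨a, ha, rfl⟩ ⟨b, hb, hab⟩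
    obtain rfl : a = b := by
      rw [← hf_inv b, hab]
      simp [hf_inv a]
    refine hf₀ a ha ?_
    linear_combination hab / 2
  · simpa [(hdf z hz).hasDerivAt.deriv] using hf₀ z hz

lemma exists_mapsTo_unitBall {U : Set ℂ} (hUo : IsOpen U)
    (hUc : IsSimplyConnected U) (hU : U ≠ univ) :
    ∃ f : ℂ → ℂ, MapsTo f U (ball 0 1) ∧ InjOn f U ∧ ∀ z ∈ U, deriv f z ≠ 0 := by
  rcases exists_injective_not_dense hUo hUc hU with ⟨f, hf_inj, hfd, hdf⟩
  obtain ⟨x, ε, hε₀, hε⟩ : ∃ (x : ℂ) (ε : ℝ), 0 < ε ∧ ∀ a ∈ U, ε < dist (f a) x := by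
    simpa [Dense, mem_closure_iff_nhds_basis Metric.nhds_basis_closedBall] using hfd
  have hfx : ∀ z ∈ U, f z ≠ x := fun z hz ↦ by simpa using hε₀.trans (hε z hz)
  use fun z ↦ ε / (f z - x)
  refine ⟨?mapsTo, ?injOn, ?deriv⟩
  case mapsTo =>
    intro z hz
    rw [mem_ball_zero_iff, norm_div, norm_real, Real.norm_of_nonneg hε₀.le, div_lt_one₀]
    · simpa [dist_eq_norm] using hε z hz
    · simpa [sub_eq_zero] using hfx z hz
  case injOn =>
    intro z hz w hw heq
    simpa [div_eq_mul_inv, hε₀.ne', hf_inj.eq_iff] using heq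
  case deriv =>
    intro z hz
    have hdz : DifferentiableAt ℂ f z := differentiableAt_of_deriv_ne_zero (hdf z hz)
    rw [(hasDerivAt_const _ _).fun_div (hdz.hasDerivAt.sub_const _) _ |>.deriv] <;>
      simp [*, ne_of_gt, sub_eq_zero]

/-- The disc automorphism. -/
noncomputable def mob (a w : ℂ) : ℂ := (w - a) / (1 - conj a * w)

lemma mob_den_ne {a w : ℂ} (ha : ‖a‖ < 1) (hw : ‖w‖ ≤ 1) : 1 - conj a * w ≠ 0 := by
  intro h
  have h1 : conj a * w = 1 := by linear_combination -h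
  have h2 : ‖conj a * w‖ = 1 := by rw [h1]; simp
  rw [norm_mul, Complex.norm_conj] at h2
  nlinarith [norm_nonneg a, norm_nonneg w]

lemma mob_normSq (a w : ℂ) :
    ‖1 - conj a * w‖ ^ 2 - ‖w - a‖ ^ 2 = (1 - ‖a‖ ^ 2) * (1 - ‖w‖ ^ 2) := by
  simp only [Complex.sq_norm, normSq_apply, sub_re, one_re, mul_re, conj_re, conj_im, sub_im,
    one_im, mul_im]
  ring

lemma norm_mob_lt {a w : ℂ} (ha : ‖a‖ < 1) (hw : ‖w‖ < 1) : ‖mob a w‖ < 1 := by
  have hd := mob_den_ne ha hw.le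
  rw [mob, norm_div, div_lt_one (norm_pos_iff.2 hd)]
  have h := mob_normSq a w
  have h1 : 0 < (1 - ‖a‖ ^ 2) * (1 - ‖w‖ ^ 2) := by
    apply mul_pos <;> nlinarith [norm_nonneg a, norm_nonneg w]
  exact lt_of_pow_lt_pow_left₀ 2 (norm_nonneg _) (by linarith)

lemma mob_inj {a w w' : ℂ} (ha : ‖a‖ < 1) (hw : ‖w‖ < 1) (hw' : ‖w'‖ < 1)
    (h : mob a w = mob a w') : w = w' := by
  have hd := mob_den_ne ha hw.le
  have hd' := mob_den_ne ha hw'.le
  have hda := mob_den_ne ha ha.le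
  rw [mob, mob, div_eq_div_iff hd hd'] at h
  have : (w - w') * (1 - conj a * a) = 0 := by linear_combination h
  rcases mul_eq_zero.1 this with h1 | h1
  · exact sub_eq_zero.1 h1
  · exact absurd h1 hda

lemma mob_self (a : ℂ) : mob a a = 0 := by simp [mob]

lemma hasDerivAt_mob {a w : ℂ} (ha : ‖a‖ < 1) (hw : ‖w‖ ≤ 1) :
    HasDerivAt (mob a) ((1 - conj a * a) / (1 - conj a * w) ^ 2) w := by
  have hd := mob_den_ne ha hw
  have h1 : HasDerivAt (fun w : ℂ => w - a) 1 w := (hasDerivAt_id w).sub_const a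
  have h2 : HasDerivAt (fun w : ℂ => 1 - conj a * w) (-(conj a * 1)) w :=
    ((hasDerivAt_id w).const_mul (conj a)).const_sub 1
  have := h1.fun_div h2 hd
  refine HasDerivAt.congr_deriv this ?_
  congr 1; ring

lemma norm_one_sub_conj_mul_self {a : ℂ} (ha : ‖a‖ < 1) : ‖1 - conj a * a‖ = 1 - ‖a‖ ^ 2 := by
  have : (1 : ℂ) - conj a * a = ((1 - ‖a‖ ^ 2 : ℝ) : ℂ) := by
    rw [Complex.conj_mul']; push_cast; ring
  rw [this, Complex.norm_real, Real.norm_of_nonneg]
  nlinarith [norm_nonneg a]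

/-- Local Hurwitz theorem. -/
lemma hurwitz_local {ι : Type*} {l : Filter ι} [l.NeBot] {V : Set ℂ} (hV : IsOpen V)
    {G : ι → ℂ → ℂ} {g : ℂ → ℂ} (hG : TendstoLocallyUniformlyOn G g l V)
    (hd : ∀ᶠ n in l, DifferentiableOn ℂ (G n) V) (hne : ∀ᶠ n in l, ∀ z ∈ V, G n z ≠ 0)
    {a : ℂ} (ha : a ∈ V) (hloc : ¬ ∀ᶠ z in 𝓝 a, g z = 0) : g a ≠ 0 := by
  have hgd : DifferentiableOn ℂ g V := hG.differentiableOn hd hV
  have han : AnalyticAt ℂ g a := hgd.analyticAt (hV.mem_nhds ha)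
  have h1 : ∀ᶠ z in 𝓝[≠] a, g z ≠ 0 := han.eventually_eq_zero_or_eventually_ne_zero.resolve_left hloc
  have h2 : ∀ᶠ z in 𝓝 a, z ∈ V ∧ (z ≠ a → g z ≠ 0) :=
    (hV.eventually_mem ha).and (eventually_nhdsWithin_iff.1 h1)
  obtain ⟨r, hr, hb⟩ := Metric.nhds_basis_closedBall.eventually_iff.1 h2
  have hsub : closedBall a r ⊆ V := fun z hz => (hb hz).1
  have hs : sphere a r ⊆ V := sphere_subset_closedBall.trans hsub
  obtain ⟨z₀, hz₀, hmin⟩ := (isCompact_sphere a r).exists_isMinOn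
    (NormedSpace.sphere_nonempty.2 hr.le) (hgd.continuousOn.mono hs).norm
  have hm : 0 < ‖g z₀‖ := by
    refine norm_pos_iff.2 ((hb (sphere_subset_closedBall hz₀)).2 ?_)
    rintro rfl
    simp at hz₀
    exact hr.ne hz₀
  set m := ‖g z₀‖ with hmdef
  have hu : TendstoUniformlyOn G g l (sphere a r) :=
    (tendstoLocallyUniformlyOn_iff_forall_isCompact hV).1 hG _ hs (isCompact_sphere a r)
  have h3 := Metric.tendstoUniformlyOn_iff.1 hu (m / 2) (by positivity)
  have h4 : ∀ᶠ n in l, m / 2 ≤ ‖G n a‖ := by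
    filter_upwards [h3, hd, hne] with n h3 hd hne
    have hdi : DifferentiableOn ℂ (fun z => (G n z)⁻¹) V := hd.inv hne
    have hcl : DiffContOnCl ℂ (fun z => (G n z)⁻¹) (ball a r) :=
      DifferentiableOn.diffContOnCl_ball hdi hsub
    have hb2 : ∀ z ∈ frontier (ball a r), ‖(G n z)⁻¹‖ ≤ (m / 2)⁻¹ := by
      intro z hz
      rw [frontier_ball a hr.ne'] at hz
      rw [norm_inv]
      apply inv_anti₀ (by positivity)
      have h5 := h3 z hz
      have h6 : m ≤ ‖g z‖ := hmin hz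
      rw [dist_eq_norm] at h5
      have h7 : ‖g z‖ ≤ ‖g z - G n z‖ + ‖G n z‖ := by
        simpa using norm_add_le (g z - G n z) (G n z)
      linarith
    have h8 := Complex.norm_le_of_forall_mem_frontier_norm_le isBounded_ball hcl hb2
      (subset_closure (mem_ball_self hr))
    rw [norm_inv] at h8
    exact (inv_le_inv₀ (norm_pos_iff.2 (hne a ha)) (by positivity)).1 h8
  have h9 : m / 2 ≤ ‖g a‖ := ge_of_tendsto (hG.tendsto_at ha).norm h4
  intro h0
  rw [h0, norm_zero] at h9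
  linarith

/-- Montel's theorem along an ultrafilter. -/
lemma montel_ultra {ι : Type*} (l : Ultrafilter ι) {U : Set ℂ} (hU : IsOpen U)
    {F : ι → ℂ → ℂ} (hd : ∀ n, DifferentiableOn ℂ (F n) U) (hb : ∀ n, ∀ z ∈ U, ‖F n z‖ ≤ 1) :
    ∃ f : ℂ → ℂ, TendstoLocallyUniformlyOn F f l U := by
  have h1 : ∀ z, ∃ w, z ∈ U → Tendsto (fun n => F n z) l (𝓝 w) := by
    intro z
    by_cases hz : z ∈ U
    · obtain ⟨w, -, hw⟩ := (isCompact_closedBall (0 : ℂ) 1).ultrafilter_le_nhds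
        (l.map (fun n => F n z)) (by
          rw [le_principal_iff]
          exact Filter.mem_map.2 (Eventually.of_forall fun n => by simpa using hb n z hz))
      exact ⟨w, fun _ => hw⟩
    · exact ⟨0, fun h => absurd h hz⟩
  choose f hf using h1
  refine ⟨f, Metric.tendstoLocallyUniformlyOn_iff.2 fun ε hε x hx => ?_⟩
  obtain ⟨R, hR, hRU⟩ := Metric.isOpen_iff.1 hU x hx
  have hlip : ∀ n, ∀ y ∈ ball x R, dist (F n y) (F n x) ≤ 2 / R * dist y x := by
    intro n y hy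
    refine Complex.dist_le_div_mul_dist_of_mapsTo_ball ((hd n).mono hRU) ?_ hy
    intro z hz
    rw [mem_closedBall, dist_eq_norm]
    have := norm_sub_le (F n z) (F n x)
    linarith [hb n z (hRU hz), hb n x hx]
  have hlipf : ∀ y ∈ ball x R, dist (f y) (f x) ≤ 2 / R * dist y x := by
    intro y hy
    exact le_of_tendsto ((hf y (hRU hy)).dist (hf x hx)) (Eventually.of_forall fun n => hlip n y hy)
  refine ⟨ball x (min R (ε * R / 8)), mem_nhdsWithin_of_mem_nhds (ball_mem_nhds _ (by positivity)), ?_⟩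
  have h2 := Metric.tendsto_nhds.1 (hf x hx) (ε / 2) (by positivity)
  filter_upwards [h2] with n hn y hy
  have hy1 : y ∈ ball x R := ball_subset_ball (min_le_left _ _) hy
  have hy2 : dist y x < ε * R / 8 := lt_of_lt_of_le hy (min_le_right _ _)
  have h3 : 2 / R * dist y x ≤ ε / 4 := by
    calc 2 / R * dist y x ≤ 2 / R * (ε * R / 8) := by gcongr
      _ = ε / 4 := by field_simp; ring
  have h4 := hlip n y hy1
  have h5 := hlipf y hy1
  have h6 := dist_triangle4 (f y) (f x) (F n x) (F n y)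
  rw [dist_comm (f x) (F n x), dist_comm (F n x) (F n y)] at h6
  linarith

/-- The family of competitors. -/
structure Fam (U : Set ℂ) (q : ℂ) (f : ℂ → ℂ) : Prop where
  diff : DifferentiableOn ℂ f U
  inj : InjOn f U
  lt_one : ∀ z ∈ U, ‖f z‖ < 1
  zero : f q = 0
  dne : ∀ z ∈ U, deriv f z ≠ 0

lemma Fam.of_mob {U : Set ℂ} (hUo : IsOpen U) {g : ℂ → ℂ} (hd : DifferentiableOn ℂ g U)
    (hi : InjOn g U) (hl : ∀ z ∈ U, ‖g z‖ < 1) (hne : ∀ z ∈ U, deriv g z ≠ 0) {q : ℂ}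
    (hq : q ∈ U) : Fam U q (fun z => mob (g q) (g z)) ∧
      ‖deriv (fun z => mob (g q) (g z)) q‖ = ‖deriv g q‖ / (1 - ‖g q‖ ^ 2) := by
  have hder : ∀ z ∈ U, HasDerivAt (fun z => mob (g q) (g z))
      ((1 - conj (g q) * g q) / (1 - conj (g q) * g z) ^ 2 * deriv g z) z := fun z hz =>
    (hasDerivAt_mob (hl q hq) (hl z hz).le).comp z
      (hd.differentiableAt (hUo.mem_nhds hz)).hasDerivAt
  refine ⟨⟨fun z hz => (hder z hz).differentiableAt.differentiableWithinAt,
    fun z hz w hw h => hi hz hw (mob_inj (hl q hq) (hl z hz) (hl w hw) h),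
    fun z hz => norm_mob_lt (hl q hq) (hl z hz), mob_self _, fun z hz => ?_⟩, ?_⟩
  · rw [(hder z hz).deriv]
    exact mul_ne_zero (div_ne_zero (mob_den_ne (hl q hq) (hl q hq).le)
      (pow_ne_zero _ (mob_den_ne (hl q hq) (hl z hz).le))) (hne z hz)
  · rw [(hder q hq).deriv, norm_mul, norm_div, norm_pow, norm_one_sub_conj_mul_self (hl q hq)]
    have : 0 < 1 - ‖g q‖ ^ 2 := by nlinarith [norm_nonneg (g q), hl q hq]
    field_simp

lemma Fam.improve {U : Set ℂ} (hUo : IsOpen U) (hUc : IsSimplyConnected U) {q : ℂ} (hq : q ∈ U)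
    {f : ℂ → ℂ} (hf : Fam U q f) {a : ℂ} (ha : ‖a‖ < 1) (hna : ∀ z ∈ U, f z ≠ a) :
    ∃ F, Fam U q F ∧ ‖deriv f q‖ < ‖deriv F q‖ := by
  have hder : ∀ z ∈ U, HasDerivAt (fun z => mob a (f z))
      ((1 - conj a * a) / (1 - conj a * f z) ^ 2 * deriv f z) z := fun z hz =>
    (hasDerivAt_mob ha (hf.lt_one z hz).le).comp z
      (hf.diff.differentiableAt (hUo.mem_nhds hz)).hasDerivAt
  have hg0 : ∀ z ∈ U, mob a (f z) ≠ 0 := fun z hz =>
    div_ne_zero (sub_ne_zero.2 (hna z hz)) (mob_den_ne ha (hf.lt_one z hz).le)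
  obtain ⟨s, hsc, hs⟩ := exists_continuousOn_pow_eq hUc hUo (g := fun z => mob a (f z))
    (fun z hz => (hder z hz).continuousAt.continuousWithinAt)
    (by rintro ⟨z, hz, h⟩; exact hg0 z hz h) two_ne_zero
  have hs0 : ∀ z ∈ U, s z ≠ 0 := by
    intro z hz h
    apply hg0 z hz
    rw [← hs z, h]; simp
  have hsd : ∀ z ∈ U, HasDerivAt s
      ((2 * s z)⁻¹ * ((1 - conj a * a) / (1 - conj a * f z) ^ 2 * deriv f z)) z := by
    intro z hz
    have h2 : HasStrictDerivAt (fun w : ℂ => w ^ 2) (2 * s z) (s z) := by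
      simpa using hasStrictDerivAt_pow 2 (s z)
    have hne : (2 * s z) ≠ 0 := by simpa using hs0 z hz
    have h3 := h2.to_localInverse hne
    have h4 := h2.eventually_left_inverse hne
    have h5 : ∀ᶠ y in 𝓝 z, h2.localInverse _ _ _ hne (mob a (f y)) = s y := by
      have := (hsc.continuousAt (hUo.mem_nhds hz)).tendsto.eventually h4
      filter_upwards [this] with y hy
      rw [← hs y]; exact hy
    have h6 : HasDerivAt (h2.localInverse _ _ _ hne) (2 * s z)⁻¹ (mob a (f z)) := by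
      rw [← hs z]; exact h3.hasDerivAt
    exact (h6.comp z (hder z hz)).congr_of_eventuallyEq (h5.mono fun y hy => hy.symm)
  have hsl : ∀ z ∈ U, ‖s z‖ < 1 := by
    intro z hz
    have h := norm_mob_lt ha (hf.lt_one z hz)
    rw [← hs z, norm_pow] at h
    exact lt_of_pow_lt_pow_left₀ 2 zero_le_one (by simpa using h)
  have hsi : InjOn s U := by
    intro z hz w hw h
    apply hf.inj hz hw
    apply mob_inj ha (hf.lt_one z hz) (hf.lt_one w hw)
    rw [← hs z, ← hs w, h]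
  have hsne : ∀ z ∈ U, deriv s z ≠ 0 := by
    intro z hz
    rw [(hsd z hz).deriv]
    refine mul_ne_zero (inv_ne_zero (by simpa using hs0 z hz)) (mul_ne_zero (div_ne_zero
      (mob_den_ne ha ha.le) (pow_ne_zero _ (mob_den_ne ha (hf.lt_one z hz).le))) (hf.dne z hz))
  obtain ⟨hF, hFd⟩ := Fam.of_mob hUo
    (fun z hz => (hsd z hz).differentiableAt.differentiableWithinAt) hsi hsl hsne hq
  refine ⟨_, hF, ?_⟩
  have hβ : ‖s q‖ ^ 2 = ‖a‖ := by
    rw [← norm_pow, hs q, hf.zero]; simp [mob]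
  have hβ0 : 0 < ‖s q‖ := norm_pos_iff.2 (hs0 q hq)
  have hβ1 := hsl q hq
  have hd0 : 0 < ‖deriv f q‖ := norm_pos_iff.2 (hf.dne q hq)
  rw [hFd, (hsd q hq).deriv, norm_mul, norm_mul, norm_div, norm_one_sub_conj_mul_self ha,
    hf.zero, ← hβ, norm_inv, norm_mul]
  have h1 : 0 < 1 - ‖s q‖ ^ 2 := by nlinarith
  simp only [mul_zero, sub_zero, one_pow, norm_one, div_one, Complex.norm_ofNat]
  rw [lt_div_iff₀ h1, ← sub_pos]
  have : (2 * ‖s q‖)⁻¹ * ((1 - (‖s q‖ ^ 2) ^ 2) * ‖deriv f q‖) - ‖deriv f q‖ * (1 - ‖s q‖ ^ 2)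
      = (2 * ‖s q‖)⁻¹ * (1 - ‖s q‖ ^ 2) * (1 - ‖s q‖) ^ 2 * ‖deriv f q‖ := by
    field_simp; ring
  rw [this]
  have : 0 < 1 - ‖s q‖ := by linarith
  positivity

lemma Fam.exists_max {U : Set ℂ} (hUo : IsOpen U) (hUc : IsPreconnected U) {q : ℂ} (hq : q ∈ U)
    {f₀ : ℂ → ℂ} (hf₀ : Fam U q f₀) :
    ∃ f, Fam U q f ∧ ∀ F, Fam U q F → ‖deriv F q‖ ≤ ‖deriv f q‖ := by
  obtain ⟨R, hR, hRU⟩ := Metric.isOpen_iff.1 hUo q hq
  set S : Set ℝ := (fun F => ‖deriv F q‖) '' {F | Fam U q F} with hS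
  have hbdd : BddAbove S := by
    refine ⟨1 / R, ?_⟩
    rintro _ ⟨F, hF, rfl⟩
    refine Complex.norm_deriv_le_div_of_mapsTo_ball (hF.diff.mono hRU) ?_ hR
    intro z hz
    rw [hF.zero, mem_closedBall_zero_iff]
    exact (hF.lt_one z (hRU hz)).le
  have hne : S.Nonempty := ⟨_, f₀, hf₀, rfl⟩
  obtain ⟨u, -, hu, huS⟩ := exists_seq_tendsto_sSup hne hbdd
  choose F hF hFu using huS
  obtain ⟨f, hf⟩ := montel_ultra (hyperfilter ℕ) hUo (F := F) (fun n => (hF n).diff)
    (fun n z hz => ((hF n).lt_one z hz).le)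
  have hFd : ∀ᶠ n in (hyperfilter ℕ : Filter ℕ), DifferentiableOn ℂ (F n) U :=
    Eventually.of_forall fun n => (hF n).diff
  have hfd : DifferentiableOn ℂ f U := hf.differentiableOn hFd hUo
  have hf' := hf.deriv hFd hUo
  have hsup : ‖deriv f q‖ = sSup S := by
    have h1 : Tendsto (fun n => ‖deriv (F n) q‖) (hyperfilter ℕ) (𝓝 ‖deriv f q‖) :=
      (hf'.tendsto_at hq).norm
    have h2 : Tendsto (fun n => ‖deriv (F n) q‖) (hyperfilter ℕ) (𝓝 (sSup S)) := by
      have : (fun n => ‖deriv (F n) q‖) = u := funext hFu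
      rw [this]
      exact hu.mono_left (hyperfilter_le_cofinite.trans Nat.cofinite_eq_atTop.le)
    exact tendsto_nhds_unique h1 h2
  have hmax : ∀ G, Fam U q G → ‖deriv G q‖ ≤ ‖deriv f q‖ := fun G hG => by
    rw [hsup]; exact le_csSup hbdd ⟨G, hG, rfl⟩
  have hdq : deriv f q ≠ 0 := by
    have := (norm_pos_iff.2 (hf₀.dne q hq)).trans_le (hmax f₀ hf₀)
    exact norm_pos_iff.1 this
  have hfq : f q = 0 := by
    have h1 := hf.tendsto_at hq
    have h2 : (fun n => F n q) = fun _ => 0 := funext fun n => (hF n).zero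
    rw [h2] at h1
    exact tendsto_nhds_unique h1 tendsto_const_nhds
  have hfa : AnalyticOnNhd ℂ f U := hfd.analyticOnNhd hUo
  have hnc : ∀ a ∈ U, ∀ c : ℂ, ¬ ∀ᶠ z in 𝓝 a, f z = c := by
    intro a ha c h
    have h1 : EqOn f (fun _ => c) U :=
      hfa.eqOn_of_preconnected_of_eventuallyEq analyticOnNhd_const hUc ha h
    have h2 : f =ᶠ[𝓝 q] fun _ => c := (hUo.eventually_mem hq).mono fun z hz => h1 hz
    apply hdq
    rw [h2.deriv_eq]; simp
  refine ⟨f, ⟨hfd, ?_, ?_, hfq, ?_⟩, hmax⟩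
  · intro a ha b hb hab
    by_contra hne
    have hV : IsOpen (U \ {b}) := hUo.sdiff isClosed_singleton
    have h1 : TendstoLocallyUniformlyOn (fun n z => F n z - F n b) (fun z => f z - f b)
        (hyperfilter ℕ) (U \ {b}) := by
      refine (hf.mono sdiff_subset).sub ?_
      exact ((hf.tendsto_at hb).tendstoUniformlyOn_const _).tendstoLocallyUniformlyOn
    refine hurwitz_local hV h1 (Eventually.of_forall fun n =>
      ((hF n).diff.mono sdiff_subset).sub_const _) (Eventually.of_forall fun n z hz => ?_)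
      (a := a) ⟨ha, hne⟩ ?_ (by simp [hab])
    · exact sub_ne_zero.2 fun h => hz.2 ((hF n).inj hz.1 hb h)
    · intro h
      exact hnc a ha (f b) (h.mono fun z hz => sub_eq_zero.1 hz)
  · intro z hz
    have hle : ∀ y ∈ U, ‖f y‖ ≤ 1 := fun y hy =>
      le_of_tendsto (hf.tendsto_at hy).norm (Eventually.of_forall fun n => ((hF n).lt_one y hy).le)
    by_contra hge
    have hmx : IsMaxOn (norm ∘ f) U z := fun y hy => (hle y hy).trans (not_lt.1 hge)
    have := Complex.norm_eqOn_of_isPreconnected_of_isMaxOn hUc hUo hfd hz hmx hq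
    simp [hfq] at this
    rw [← this] at hge
    simp at hge
  · intro a ha
    refine hurwitz_local hUo hf' (Eventually.of_forall fun n => (hF n).diff.deriv hUo)
      (Eventually.of_forall fun n => (hF n).dne) ha fun h => hdq ?_
    have h1 : EqOn (deriv f) (fun _ => 0) U :=
      hfa.deriv.eqOn_of_preconnected_of_eventuallyEq analyticOnNhd_const hUc ha h
    exact h1 hq

/-- A Riemann map: an injective proper holomorphic map to the unit disc. -/
structure IsRM (U : Set ℂ) (f : ℂ → ℂ) : Prop where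
  diff : DifferentiableOn ℂ f U
  inj : InjOn f U
  lt_one : ∀ z ∈ U, ‖f z‖ < 1
  dne : ∀ z ∈ U, deriv f z ≠ 0
  cpt : ∀ r < 1, IsCompact {z | z ∈ U ∧ ‖f z‖ ≤ r}

/-- The Riemann mapping theorem. -/
theorem riemann_mapping {U : Set ℂ} (hUo : IsOpen U) (hUc : IsSimplyConnected U) (hU : U ≠ univ)
    {q : ℂ} (hq : q ∈ U) :
    ∃ f, IsRM U f ∧ f q = 0 ∧ ∀ w, ‖w‖ < 1 → ∃ z ∈ U, f z = w := by
  obtain ⟨g, hg1, hg2, hg3⟩ := exists_mapsTo_unitBall hUo hUc hU
  have h0 := (Fam.of_mob hUo (fun z hz =>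
    (differentiableAt_of_deriv_ne_zero (hg3 z hz)).differentiableWithinAt) hg2
    (fun z hz => by simpa using hg1 hz) hg3 hq).1
  obtain ⟨f, hf, hmax⟩ := Fam.exists_max hUo hUc.isPathConnected.isConnected.isPreconnected hq h0
  have hsurj : ∀ w, ‖w‖ < 1 → ∃ z ∈ U, f z = w := by
    intro w hw
    by_contra h
    push Not at h
    obtain ⟨F, hF, hlt⟩ := hf.improve hUo hUc hq hw h
    exact absurd (hmax F hF) (not_le.2 hlt)
  refine ⟨f, ⟨hf.diff, hf.inj, hf.lt_one, hf.dne, fun r hr => ?_⟩, hf.zero, hsurj⟩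
  classical
  set g : ℂ → ℂ := invFunOn f U with hg
  have hleft : ∀ z ∈ U, g (f z) = z := fun z hz => hf.inj.leftInvOn_invFunOn hz
  have hcont : ContinuousOn g (closedBall 0 r) := by
    intro w hw
    obtain ⟨z, hz, rfl⟩ := hsurj w (lt_of_le_of_lt (by simpa using hw) hr)
    have hs : HasStrictDerivAt f (deriv f z) z :=
      (hf.diff.analyticAt (hUo.mem_nhds hz)).hasStrictDerivAt
    have hm := hs.map_nhds_eq (hf.dne z hz)
    apply ContinuousAt.continuousWithinAt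
    rw [ContinuousAt, ← hm, tendsto_map'_iff, hleft z hz]
    exact tendsto_id.congr' ((hUo.eventually_mem hz).mono fun y hy => (hleft y hy).symm)
  have heq : {z | z ∈ U ∧ ‖f z‖ ≤ r} = g '' closedBall 0 r := by
    ext z
    constructor
    · rintro ⟨hz, hr'⟩
      exact ⟨f z, by simpa using hr', hleft z hz⟩
    · rintro ⟨w, hw, rfl⟩
      obtain ⟨z, hz, rfl⟩ := hsurj w (lt_of_le_of_lt (by simpa using hw) hr)
      rw [hleft z hz]
      exact ⟨hz, by simpa using hw⟩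
  rw [heq]
  exact (isCompact_closedBall 0 r).image_of_continuousOn hcont

end Pool.Agent.P.MP_41df0b_an
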