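import Pool.Agent.P.MP_41df0b_an.Green

/-!
Doubled profile domains and estimates for their Green functions.
-/

set_option autoImplicit false

open Function Filter Metric Set Complex InnerProductSpace
open scoped Pointwise Topology ComplexConjugate

namespace Pool.Agent.P.MP_41df0b_an

lemma simplyConnected_of_vertical {U : Set ℂ} (hR : ∀ x : ℝ, (x : ℂ) ∈ U)
    (hV : ∀ z ∈ U, ∀ w : ℂ, w.re = z.re → |w.im| ≤ |z.im| → w ∈ U) : IsSimplyConnected U := by
  have hmem : ∀ p : unitInterval × U, (((min 1 (2 * (1 - (p.1 : ℝ))) * (p.2 : ℂ).re : ℝ) : ℂ) +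
      ((max 0 (1 - 2 * (p.1 : ℝ)) * (p.2 : ℂ).im : ℝ) : ℂ) * I) ∈ U := by
    rintro ⟨s, z⟩
    have h0 := s.2.1
    have h1 := s.2.2
    by_cases hs : (s : ℝ) ≤ 1 / 2
    · refine hV z z.2 _ ?_ ?_
      · simp [min_eq_left (show (1 : ℝ) ≤ 2 * (1 - s) by linarith)]
      · have : max 0 (1 - 2 * (s : ℝ)) = 1 - 2 * s := max_eq_right (by linarith)
        simp only [this, add_im, ofReal_im, mul_im, ofReal_re, I_im, mul_one, I_re, mul_zero,
          add_zero, zero_add, abs_mul]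
        rw [abs_of_nonneg (by linarith : (0 : ℝ) ≤ 1 - 2 * s)]
        nlinarith [abs_nonneg (z : ℂ).im]
    · have : max 0 (1 - 2 * (s : ℝ)) = 0 := max_eq_left (by linarith)
      simp only [this, zero_mul, ofReal_zero, add_zero]
      exact hR _
  have : ContractibleSpace U := by
    rw [contractible_iff_id_nullhomotopic]
    refine ⟨⟨((0 : ℝ) : ℂ), hR 0⟩, ⟨⟨⟨fun p => ⟨_, hmem p⟩, ?_⟩, ?_, ?_⟩⟩⟩
    · apply Continuous.subtype_mk
      fun_prop
    · intro z
      apply Subtype.ext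
      simp
    · intro z
      apply Subtype.ext
      norm_num
  exact inferInstanceAs (SimplyConnectedSpace U)

/-- Admissible profiles. -/
structure Prof (h : ℝ → ℝ) : Prop where
  anti : Antitone h
  lo : ∀ x, 4 ≤ h x
  hi : ∀ x, h x ≤ 80

/-- The domain below the profile `h` on the left of `t`, doubled across the line `re = t`. -/
def Om (h : ℝ → ℝ) (t : ℝ) : Set ℂ :=
  {z | ∃ s, (z.re < s ∨ 2 * t - z.re < s) ∧ |z.im| < h (min s t)}

lemma isOpen_Om (h : ℝ → ℝ) (t : ℝ) : IsOpen (Om h t) := by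
  have : Om h t = ⋃ s : ℝ, (({z : ℂ | z.re < s} ∪ {z : ℂ | 2 * t - z.re < s}) ∩
      {z : ℂ | |z.im| < h (min s t)}) := by
    ext z; simp [Om]
  rw [this]
  refine isOpen_iUnion fun s => IsOpen.inter (IsOpen.union ?_ ?_) ?_
  · exact isOpen_lt (by fun_prop) (by fun_prop)
  · exact isOpen_lt (by fun_prop) (by fun_prop)
  · exact isOpen_lt (by fun_prop) (by fun_prop)

/-- Domains between the two strips. -/
structure Dom (U : Set ℂ) : Prop where
  good : Good U
  lo : ∀ z : ℂ, |z.im| < 4 → z ∈ U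
  hi : ∀ z ∈ U, |z.im| < 80

lemma Prof.mem {h : ℝ → ℝ} (hh : Prof h) (t : ℝ) {z : ℂ} (hz : |z.im| < 4) : z ∈ Om h t :=
  ⟨z.re + 1, Or.inl (by linarith), hz.trans_le (hh.lo _)⟩

lemma Om_vertical {h : ℝ → ℝ} {t : ℝ} {z : ℂ} (hz : z ∈ Om h t) {w : ℂ} (h1 : w.re = z.re)
    (h2 : |w.im| ≤ |z.im|) : w ∈ Om h t := by
  obtain ⟨s, hs, hs'⟩ := hz
  exact ⟨s, by rwa [h1], h2.trans_lt hs'⟩

lemma Prof.simplyConnected {h : ℝ → ℝ} (hh : Prof h) (t : ℝ) : IsSimplyConnected (Om h t) :=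
  simplyConnected_of_vertical (fun x => hh.mem t (by simp)) fun _ hz _ h1 h2 => Om_vertical hz h1 h2

lemma Prof.hi' {h : ℝ → ℝ} (hh : Prof h) (t : ℝ) {z : ℂ} (hz : z ∈ Om h t) : |z.im| < 80 := by
  obtain ⟨s, -, hs⟩ := hz
  exact hs.trans_le (hh.hi _)

lemma Prof.ne_univ {h : ℝ → ℝ} (hh : Prof h) (t : ℝ) : Om h t ≠ univ := by
  intro he
  have : (80 * I : ℂ) ∈ Om h t := by rw [he]; trivial
  have := hh.hi' t this
  simp at this

lemma Prof.dom {h : ℝ → ℝ} (hh : Prof h) (t : ℝ) : Dom (Om h t) := by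
  obtain ⟨f, hf, -⟩ := riemann_mapping (isOpen_Om h t) (hh.simplyConnected t) (hh.ne_univ t)
    (q := 0) (hh.mem t (by simp))
  exact ⟨⟨isOpen_Om h t, f, hf⟩, fun z hz => hh.mem t hz, fun z hz => hh.hi' t hz⟩

lemma Dom.mem {U : Set ℂ} (hU : Dom U) {z : ℂ} (hz : ‖z‖ ≤ 3) : z ∈ U :=
  hU.lo z ((Complex.abs_im_le_norm z).trans_lt (by linarith))

lemma Dom.bounds {U : Set ℂ} (hU : Dom U) {z q : ℂ} (hz : ‖z‖ ≤ 1) (hq : ‖q‖ ≤ 1) :
    0 ≤ HH U z q ∧ HH U z q ≤ 6 := by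
  constructor
  · refine le_trans (Real.log_nonneg one_le_two) (disc_bound hU.good two_pos (fun w hw => ?_) ?_)
    · rw [mem_closedBall_iff_norm] at hw
      refine hU.mem ?_
      have := norm_add_le (w - q) q
      rw [sub_add_cancel] at this
      linarith
    · rw [mem_closedBall_iff_norm]
      linarith [norm_sub_le z q]
  · have h := (ray_bound hU.good (hU.mem (z := q) (by linarith)) (ζ := 80 * I) (u := I) (by simp)
      (fun w hw => Or.inl (by
        have := hU.hi w hw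
        simp
        linarith [le_abs_self w.im])) (hU.mem (z := z) (by linarith))).1
    have e : ∀ w : ℂ, ‖w‖ ≤ 1 → √‖w - 80 * I‖ ≤ 9 := fun w hw => by
      rw [Real.sqrt_le_left (by norm_num)]
      have := norm_sub_le w (80 * I)
      simp at this
      linarith
    have p : 0 < √‖q - 80 * I‖ := by
      apply Real.sqrt_pos.2
      have := norm_sub_norm_le (80 * I) q
      rw [norm_sub_rev] at this
      simp at this
      linarith
    have h2 : Real.log (√‖z - 80 * I‖ + √‖q - 80 * I‖) ≤ 3 := by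
      rw [Real.log_le_iff_le_exp (by positivity)]
      have h3 : Real.exp 3 = Real.exp 1 ^ 3 := by rw [← Real.exp_nat_mul]; norm_num
      have h4 : (2.7 : ℝ) ^ 3 ≤ Real.exp 1 ^ 3 := by
        gcongr
        linarith [Real.exp_one_gt_d9]
      linarith [e z hz, e q hq]
    linarith

lemma ball_half {c z : ℂ} (hc : ‖c‖ ≤ 1 / 2) (hz : z ∈ closedBall c (1 / 2)) : ‖z‖ ≤ 1 := by
  rw [mem_closedBall_iff_norm] at hz
  have := norm_add_le (z - c) c
  rw [sub_add_cancel] at this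
  linarith

lemma norm_le_of_close {c z : ℂ} (hc : ‖c‖ ≤ 1 / 2) (hz : ‖z - c‖ ≤ 1 / 4) : ‖z‖ ≤ 1 :=
  ball_half hc (by rw [mem_closedBall_iff_norm]; linarith)

lemma Dom.sub {U : Set ℂ} (hU : Dom U) {c : ℂ} (hc : ‖c‖ ≤ 1 / 2) : closedBall c (1 / 2) ⊆ U :=
  fun _ hz => hU.mem (by linarith [ball_half hc hz])

lemma Dom.lip2 {U : Set ℂ} (hU : Dom U) {p c z : ℂ} (hp : ‖p‖ ≤ 1) (hc : ‖c‖ ≤ 1 / 2)
    (hz : ‖z - c‖ ≤ 1 / 4) : |HH U p z - HH U p c| ≤ 48 * ‖z - c‖ := by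
  have h := harnack (w := fun q => HH U p q) (c := c)
    ((hU.good.harmonic' (hU.mem (by linarith))).mono (hU.sub hc))
    (fun w hw => (hU.bounds hp (ball_half hc hw)).1) hz
  have h2 := (hU.bounds hp (q := c) (by linarith)).2
  nlinarith [norm_nonneg (z - c)]

lemma Dom.lip1 {U : Set ℂ} (hU : Dom U) {q c z : ℂ} (hq : ‖q‖ ≤ 1) (hc : ‖c‖ ≤ 1 / 2)
    (hz : ‖z - c‖ ≤ 1 / 4) : |HH U z q - HH U c q| ≤ 48 * ‖z - c‖ := by
  have hz1 := norm_le_of_close hc hz
  rw [hU.good.symm (hU.mem (z := z) (by linarith)) (hU.mem (by linarith)),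
    hU.good.symm (hU.mem (z := c) (by linarith)) (hU.mem (by linarith))]
  exact hU.lip2 hq hc hz

lemma Dom.diff1 {U V : Set ℂ} (hU : Dom U) (hV : Dom V) (h : V ⊆ U) {q c z : ℂ} (hq : ‖q‖ ≤ 1)
    (hc : ‖c‖ ≤ 1 / 2) (hz : ‖z - c‖ ≤ 1 / 4) :
    |(HH U z q - HH V z q) - (HH U c q - HH V c q)| ≤ 8 * ‖z - c‖ * (HH U c q - HH V c q) :=
  harnack (w := fun z => HH U z q - HH V z q) (c := c)
    (((hU.good.harmonic (hU.mem (by linarith))).mono (hU.sub hc)).sub
      ((hV.good.harmonic (hV.mem (by linarith))).mono (hV.sub hc)))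
    (fun w hw => sub_nonneg.2 (hV.good.mono hU.good h (hV.sub hc hw) (hV.mem (by linarith)))) hz

lemma Dom.diff2 {U V : Set ℂ} (hU : Dom U) (hV : Dom V) (h : V ⊆ U) {p c z : ℂ} (hp : ‖p‖ ≤ 1)
    (hc : ‖c‖ ≤ 1 / 2) (hz : ‖z - c‖ ≤ 1 / 4) :
    |(HH U p z - HH V p z) - (HH U p c - HH V p c)| ≤ 8 * ‖z - c‖ * (HH U p c - HH V p c) :=
  harnack (w := fun z => HH U p z - HH V p z) (c := c)
    (((hU.good.harmonic' (hU.mem (by linarith))).mono (hU.sub hc)).sub
      ((hV.good.harmonic' (hV.mem (by linarith))).mono (hV.sub hc)))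
    (fun w hw => sub_nonneg.2 (hV.good.mono hU.good h (hV.mem (by linarith)) (hV.sub hc hw))) hz

lemma Dom.mixed {U : Set ℂ} (hU : Dom U) {p p' q q' : ℂ} (hp : ‖p‖ ≤ 1 / 2) (hq : ‖q‖ ≤ 1 / 2)
    (hp' : ‖p' - p‖ ≤ 1 / 4) (hq' : ‖q' - q‖ ≤ 1 / 4) :
    |(HH U p' q' - HH U p' q) - (HH U p q' - HH U p q)| ≤ 768 * ‖p' - p‖ * ‖q' - q‖ := by
  have hq1 := norm_le_of_close hq hq'
  have h := harnack (w := fun z => HH U z q' - HH U z q + 48 * ‖q' - q‖) (c := p)
    ((((hU.good.harmonic (hU.mem (by linarith))).mono (hU.sub hp)).sub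
      ((hU.good.harmonic (hU.mem (by linarith))).mono (hU.sub hp))).add
      (harmonicOnNhd_const (s := closedBall p (1 / 2)) (48 * ‖q' - q‖)))
    (fun w hw => by
      have := hU.lip2 (ball_half hp hw) hq hq'
      linarith [neg_abs_le (HH U w q' - HH U w q)]) hp'
  have h2 := hU.lip2 (p := p) (by linarith) hq hq'
  have h3 := le_abs_self (HH U p q' - HH U p q)
  have e : HH U p' q' - HH U p' q + 48 * ‖q' - q‖ - (HH U p q' - HH U p q + 48 * ‖q' - q‖) =
    (HH U p' q' - HH U p' q) - (HH U p q' - HH U p q) := by ring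
  rw [e] at h
  refine h.trans ?_
  nlinarith [norm_nonneg (p' - p)]

lemma Om_anti {h : ℝ → ℝ} (hh : Antitone h) {t t' : ℝ} (ht : t ≤ t') : Om h t' ⊆ Om h t := by
  rintro z ⟨s, hs, hs'⟩
  refine ⟨s, hs.imp id fun h => by linarith, hs'.trans_le (hh (min_le_min_left _ ht))⟩

lemma Om_shift (h : ℝ → ℝ) (t c : ℝ) :
    Om (fun x => h (x + c)) (t - c) = (fun z : ℂ => z + c) ⁻¹' Om h t := by
  ext z
  simp only [Om, mem_ofPred_eq, mem_preimage, add_re, ofReal_re, add_im, ofReal_im, add_zero]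
  constructor
  · rintro ⟨s, hs, hs'⟩
    refine ⟨s + c, hs.imp (fun h => by linarith) fun h => by linarith, ?_⟩
    rwa [← min_add_add_right, sub_add_cancel] at hs'
  · rintro ⟨s, hs, hs'⟩
    refine ⟨s - c, hs.imp (fun h => by linarith) fun h => by linarith, ?_⟩
    rwa [← min_add_add_right, sub_add_cancel, sub_add_cancel]

lemma Prof.shift {h : ℝ → ℝ} (hh : Prof h) (c : ℝ) : Prof (fun x => h (x + c)) :=
  ⟨fun _ _ hxy => hh.anti (by linarith), fun _ => hh.lo _, fun _ => hh.hi _⟩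

/-- The quantity which determines the harmonic measure. -/
noncomputable def AA (h : ℝ → ℝ) (t : ℝ) : ℝ := HH (Om h t) 0 ((2 * t : ℝ) : ℂ)

lemma AA_congr {h h' : ℝ → ℝ} {t : ℝ} (he : ∀ x ≤ t, h x = h' x) : AA h t = AA h' t := by
  have : Om h t = Om h' t := by
    ext z
    simp only [Om, mem_ofPred_eq, he _ (min_le_right _ _)]
  rw [AA, AA, this]

lemma AA_bounds {h : ℝ → ℝ} (hh : Prof h) {t : ℝ} (ht : |t| ≤ 1 / 8) :
    0 ≤ AA h t ∧ AA h t ≤ 6 :=
  (hh.dom t).bounds (by simp) (by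
    rw [Complex.norm_real, Real.norm_eq_abs, abs_mul]; norm_num; linarith)

/-- Semi-convexity of `AA` along a flat part of the profile. -/
lemma semiconvex {h : ℝ → ℝ} (hh : Prof h) {t Δ η : ℝ} (hΔ : 0 < Δ) (hΔ' : Δ ≤ 1 / 64)
    (ht : |t| ≤ 1 / 8) (hflat : ∀ x, t - Δ < x → h x = η) :
    (AA h t - AA h (t + Δ) + 192 * Δ) * (1 - 32 * Δ) ≤ AA h (t - Δ) - AA h t + 192 * Δ := by
  set hc : ℝ → ℝ := fun x => h (x + 2 * Δ) with hhc
  have hcP : Prof hc := hh.shift _
  set A := Om h t with hA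
  set B := Om hc (t - 2 * Δ) with hB
  set G := Om h (t - Δ) with hG
  set S := Om hc (t + Δ - 2 * Δ) with hS
  have dA : Dom A := hh.dom _
  have dB : Dom B := hcP.dom _
  have dG : Dom G := hh.dom _
  have dS : Dom S := hcP.dom _
  have hAG : A ⊆ G := Om_anti hh.anti (by linarith)
  have hBG : B ⊆ G := by
    rintro z ⟨s, hs, hs'⟩
    refine ⟨s + 2 * Δ, hs.imp (fun h => by linarith) fun h => by linarith,
      hs'.trans_le (hh.anti ?_)⟩
    rw [← min_add_add_right]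
    exact min_le_min_left _ (by linarith)
  have hSB : S ⊆ B := Om_anti hcP.anti (by linarith)
  have hSA : S ⊆ A := by
    rintro z ⟨s, hs, hs'⟩
    refine ⟨s + 2 * Δ, hs.imp (fun h => by linarith) fun h => by linarith,
      hs'.trans_le (hh.anti ?_)⟩
    rw [← min_add_add_right]
    exact min_le_min_left _ (by linarith)
  have hg : ∀ σ, h (min σ (t + Δ)) = h (min σ t) := by
    intro σ
    rcases le_total σ t with h1 | h1
    · rw [min_eq_left h1, min_eq_left (by linarith)]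
    · rw [min_eq_right h1, hflat t (by linarith), hflat _ (lt_min (by linarith) (by linarith))]
  have hABS : A ∩ B ⊆ S := by
    rintro z ⟨⟨s₁, h1, h1'⟩, ⟨s₂, h2, h2'⟩⟩
    have key : ∀ σ, (z.re + 2 * Δ < σ ∨ 2 * t - z.re < σ) → |z.im| < h (min σ t) → z ∈ S := by
      intro σ ha hb
      refine ⟨σ - 2 * Δ, ha.imp (fun h => by linarith) fun h => by linarith, ?_⟩
      simp only [hhc]
      rw [← min_add_add_right, sub_add_cancel, sub_add_cancel, hg]
      exact hb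
    simp only [hhc] at h2'
    rw [← min_add_add_right, sub_add_cancel] at h2'
    rcases h1 with h1 | h1
    · rcases h2 with h2 | h2
      · exact key _ (Or.inl (by linarith)) h2'
      · have hη : |z.im| < η := by
          by_cases h3 : t - Δ < s₁
          · rwa [hflat _ (lt_min h3 (by linarith))] at h1'
          · rwa [hflat _ (lt_min (by linarith) (by linarith))] at h2'
        refine key (max (z.re + 2 * Δ + 1) t) (Or.inl (lt_max_of_lt_left (by linarith))) ?_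
        rwa [min_eq_right (le_max_right _ _), hflat t (by linarith)]
    · exact key _ (Or.inr h1) h1'
  obtain ⟨t1, t2⟩ := abs_le.1 ht
  set p' : ℂ := ((-2 * Δ : ℝ) : ℂ) with hp'
  set q : ℂ := ((2 * t : ℝ) : ℂ) with hq
  set q' : ℂ := ((2 * (t - Δ) : ℝ) : ℂ) with hq'
  have np' : ‖p'‖ = 2 * Δ := by
    rw [hp', Complex.norm_real, Real.norm_eq_abs, abs_of_neg (by linarith)]; ring
  have nq : ‖q‖ ≤ 1 / 2 := by
    rw [hq, Complex.norm_real, Real.norm_eq_abs, abs_le]; constructor <;> linarith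
  have nq' : ‖q'‖ ≤ 1 / 2 := by
    rw [hq', Complex.norm_real, Real.norm_eq_abs, abs_le]; constructor <;> linarith
  have nqq : ‖q' - q‖ = 2 * Δ := by
    rw [← np']; congr 1; simp only [hq, hq', hp']; push_cast; ring
  have np0 : ‖p' - 0‖ = 2 * Δ := by rw [sub_zero, np']
  have n0p : ‖0 - p'‖ = 2 * Δ := by rw [norm_sub_rev, np0]
  have eB : HH B p' q' = AA h t := by
    rw [HH_shift dA.good (Om_shift h t (2 * Δ)) (by
      refine dA.lo _ (by simp [hp'])) (by refine dA.lo _ (by simp [hq'])), AA]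
    congr 1
    · simp only [hp']; push_cast; ring
    · simp only [hq']; push_cast; ring
  have eS : HH S p' q = AA h (t + Δ) := by
    rw [HH_shift (hh.dom (t + Δ)).good (Om_shift h (t + Δ) (2 * Δ)) (by
      refine hh.mem _ (by simp [hp'])) (by refine hh.mem _ (by simp [hq])), AA]
    congr 1
    · simp only [hp']; push_cast; ring
    · simp only [hq]; push_cast; ring
  have eA : HH A 0 q = AA h t := rfl
  have eG : HH G 0 q' = AA h (t - Δ) := rfl
  have sm := supermod dA.good dB.good dG.good dS.good hAG hBG hABS (z := 0) (q := q')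
    ⟨dA.mem (by simp), dB.mem (by simp)⟩ ⟨dA.mem (by linarith), dB.mem (by linarith)⟩
  have d1 := dA.diff2 dS hSA (p := 0) (c := q) (z := q') (by simp) nq (by linarith)
  have d2 := dB.diff1 dS hSB (q := q') (c := p') (z := 0) (by linarith) (by linarith) (by linarith)
  have d3 := dS.mixed (p := 0) (p' := p') (q := q) (q' := q') (by simp) nq (by linarith)
    (by linarith)
  have l1 := dS.lip1 (q := q) (c := 0) (z := p') (by linarith) (by simp) (by linarith)
  have l2 := dS.lip2 (p := p') (c := q) (z := q') (by linarith) nq (by linarith)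
  rw [nqq] at d1 l2 d3
  rw [n0p] at d2
  rw [np0] at d3 l1
  rw [eA] at d1
  rw [eB] at d2
  rw [eS] at d3 l1 l2
  rw [eG] at sm
  have a1 := (abs_le.1 d1).1
  have a2 := (abs_le.1 d2).1
  have a3 := (abs_le.1 d3).2
  have a4 := (abs_le.1 l1).2
  have a5 := (abs_le.1 l2).1
  nlinarith [mul_le_mul_of_nonneg_left a4 hΔ.le, mul_le_mul_of_nonneg_left a5 hΔ.le]

lemma ray_Om {h : ℝ → ℝ} {t x y σ : ℝ} (hσ : σ = 1 ∨ σ = -1)
    (hx : ∀ s, (x < s ∨ 2 * t - x < s) → h (min s t) ≤ y) :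
    ∀ z ∈ Om h t, (σ * I) * (z - (x + σ * y * I)) ∈ slitPlane := by
  rintro z ⟨s, hs, hs'⟩
  by_cases he : z.re = x
  · left
    have := hx s (by rwa [← he])
    have h1 := abs_lt.1 (hs'.trans_le this)
    rcases hσ with rfl | rfl <;> simp <;> linarith [h1.1, h1.2]
  · right
    rcases hσ with rfl | rfl
    · simpa [sub_eq_zero] using he
    · simpa [sub_eq_zero] using Ne.symm he

/-- Stability of the Green function under small changes of the profile. -/
lemma close {h h' : ℝ → ℝ} (hh : Prof h) (hh' : Prof h') {t t' ε ρ : ℝ} (hε : 0 ≤ ε)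
    (hρ0 : 0 ≤ ρ) (hρ : ρ ≤ 1) (hερ : 4 * ε ≤ ρ ^ 2) (htt : |t - t'| ≤ ε)
    (hc : ∀ s, h (min (s + ε) t) ≤ h' (min s t') + ε) {z : ℂ} (hz : |z.im| < 4) (q : ℝ) :
    HH (Om h t) z q ≤ HH (Om h' t') z q + 2 * ρ := by
  have hqm : (q : ℂ) ∈ Om h t := hh.mem t (by simp)
  refine (hh.dom t).good.cmp (hh'.dom t').good (hh.mem t hz) (hh'.mem t' hz) hqm
    (hh'.mem t' (by simp)) (by positivity) fun w hw hw' => ?_
  obtain ⟨tt1, tt2⟩ := abs_le.1 htt
  have h1 : ∀ s, (w.re + ε < s ∨ 2 * t' - w.re + ε < s) → h (min s t) ≤ |w.im| + ε := by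
    intro s hs
    have a := hc (s - ε)
    rw [sub_add_cancel] at a
    have b : h' (min (s - ε) t') ≤ |w.im| := by
      by_contra hb
      exact hw' ⟨s - ε, hs.imp (fun h => by linarith) fun h => by linarith, not_le.1 hb⟩
    linarith
  have h2 : h t ≤ |w.im| + ε := by
    have := h1 (max (w.re + ε + 1) t) (Or.inl (lt_max_of_lt_left (by linarith)))
    rwa [min_eq_right (le_max_right _ _)] at this
  obtain ⟨x, hx1, hx2⟩ : ∃ x : ℝ, |w.re - x| ≤ 3 * ε ∧
      ∀ s, (x < s ∨ 2 * t - x < s) → h (min s t) ≤ |w.im| + ε := by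
    by_cases c1 : w.re + ε ≤ t
    · refine ⟨w.re + ε, by rw [abs_le]; constructor <;> linarith, fun s hs => h1 s (Or.inl ?_)⟩
      rcases hs with hs | hs <;> linarith
    by_cases c2 : t ≤ w.re - 3 * ε
    · refine ⟨w.re - 3 * ε, by rw [abs_le]; constructor <;> linarith, fun s hs => h1 s (Or.inr ?_)⟩
      rcases hs with hs | hs <;> linarith
    · refine ⟨t, by rw [abs_le]; constructor <;> linarith, fun s hs => ?_⟩
      rw [min_eq_right (by rcases hs with hs | hs <;> linarith)]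
      exact h2
  obtain ⟨σ, hσ, hσ'⟩ : ∃ σ : ℝ, (σ = 1 ∨ σ = -1) ∧ σ * |w.im| = w.im := by
    rcases le_total 0 w.im with a | a
    · exact ⟨1, Or.inl rfl, by rw [abs_of_nonneg a]; ring⟩
    · exact ⟨-1, Or.inr rfl, by rw [abs_of_nonpos a]; ring⟩
  have hσ1 : |σ| = 1 := by rcases hσ with rfl | rfl <;> simp
  set ζ : ℂ := x + σ * ((|w.im| + ε : ℝ) : ℂ) * I with hζ
  have hr := (ray_bound (hh.dom t).good hqm (ζ := ζ) (u := σ * I) (by simp [hσ1])
    (ray_Om hσ hx2) hw).2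
  refine le_trans ?_ hr
  have a4 : 4 ≤ |w.im| + ε := (hh.lo t).trans h2
  have a : 2 ≤ √‖q - ζ‖ := by
    apply Real.le_sqrt_of_sq_le
    have := Complex.abs_im_le_norm (q - ζ)
    have e : (q - ζ).im = -(σ * (|w.im| + ε)) := by simp [hζ]
    rw [e, abs_neg, abs_mul, hσ1, abs_of_nonneg (by linarith)] at this
    linarith
  have b : √‖w - ζ‖ ≤ ρ := by
    rw [Real.sqrt_le_left hρ0]
    have := Complex.norm_le_abs_re_add_abs_im (w - ζ)
    have e1 : (w - ζ).re = w.re - x := by simp [hζ]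
    have e2 : (w - ζ).im = -(σ * ε) := by
      simp only [hζ, sub_im, add_im, ofReal_im, mul_im, mul_re, ofReal_re, I_re, I_im]
      linear_combination -hσ'
    rw [e1, e2, abs_neg, abs_mul, hσ1, abs_of_nonneg hε] at this
    linarith
  have b0 := Real.sqrt_nonneg ‖w - ζ‖
  rw [Real.exp_neg, le_div_iff₀ (by linarith), inv_mul_le_iff₀ (Real.exp_pos _)]
  have := Real.add_one_le_exp (2 * ρ)
  nlinarith [mul_le_mul_of_nonneg_right this (show 0 ≤ √‖q - ζ‖ - √‖w - ζ‖ by linarith)]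

lemma AA_close {h h' : ℝ → ℝ} (hh : Prof h) (hh' : Prof h') {t t' ε ρ : ℝ} (hε : 0 ≤ ε)
    (hρ0 : 0 ≤ ρ) (hρ : ρ ≤ 1 / 2) (hερ : 4 * ε ≤ ρ ^ 2) (htt : |t - t'| ≤ ε) (ht' : |t'| ≤ 1 / 8)
    (hc : ∀ s, h (min (s + ε) t) ≤ h' (min s t') + ε) :
    AA h t ≤ AA h' t' + 2 * ρ + 96 * ε := by
  have h1 := close hh hh' hε hρ0 (by linarith) hερ htt hc (z := 0) (by simp) (2 * t)
  have e : ‖((2 * t : ℝ) : ℂ) - ((2 * t' : ℝ) : ℂ)‖ ≤ 2 * ε := by
    rw [← Complex.ofReal_sub, Complex.norm_real, Real.norm_eq_abs, ← mul_sub, abs_mul]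
    norm_num; linarith
  have h2 := (hh'.dom t').lip2 (p := 0) (c := ((2 * t' : ℝ) : ℂ)) (z := ((2 * t : ℝ) : ℂ)) (by simp)
    (by rw [Complex.norm_real, Real.norm_eq_abs, abs_mul]; norm_num; linarith) (by nlinarith)
  have h3 := (abs_le.1 h2).2
  simp only [AA]
  linarith

lemma AA_neck {h : ℝ → ℝ} (hh : Prof h) {t : ℝ} (ht : |t| ≤ 1 / 8) (h4 : h t = 4) :
    AA h t ≤ Real.log 17 := by
  have hr := (ray_bound (hh.dom t).good (q := ((2 * t : ℝ) : ℂ)) (hh.mem t (by simp))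
    (ζ := t + (1 : ℝ) * ((4 : ℝ) : ℂ) * I) (u := (1 : ℝ) * I) (by simp)
    (ray_Om (Or.inl rfl) fun s hs => by
      rw [min_eq_right (by rcases hs with hs | hs <;> linarith), h4]) (z := 0)
    (hh.mem t (by simp))).1
  refine hr.trans ?_
  have e : ∀ w : ℂ, |w.re| ≤ 1 / 8 → |w.im| = 4 → 2 ≤ √‖w‖ ∧ √‖w‖ ≤ √17 / 2 := by
    intro w h1 h2
    constructor
    · apply Real.le_sqrt_of_sq_le
      linarith [Complex.abs_im_le_norm w]
    · rw [Real.sqrt_le_left (by positivity), div_pow, Real.sq_sqrt (by norm_num)]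
      linarith [Complex.norm_le_abs_re_add_abs_im w]
  have e1 := e (0 - (t + (1 : ℝ) * ((4 : ℝ) : ℂ) * I)) (by simpa using ht) (by simp)
  have e2 := e (((2 * t : ℝ) : ℂ) - (t + (1 : ℝ) * ((4 : ℝ) : ℂ) * I))
    (by simpa [two_mul] using ht) (by simp)
  have e3 : Real.log 17 = 2 * Real.log √17 := by
    rw [Real.log_sqrt (by norm_num)]; ring
  rw [e3]
  gcongr
  · linarith [e1.1, e2.1]
  · linarith [e1.2, e2.2]

lemma AA_wide {h : ℝ → ℝ} (hh : Prof h) {t : ℝ} (ht : |t| ≤ 1 / 8) (h4 : ∀ x, 40 ≤ h x) :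
    Real.log 39 ≤ AA h t := by
  refine disc_bound (hh.dom t).good (by norm_num) (fun w hw => ⟨w.re + 1, Or.inl (by linarith), ?_⟩) ?_
  · rw [mem_closedBall_iff_norm] at hw
    have := Complex.abs_im_le_norm (w - ((2 * t : ℝ) : ℂ))
    simp only [sub_im, ofReal_im, sub_zero] at this
    linarith [h4 (min (w.re + 1) t)]
  · rw [mem_closedBall_iff_norm, zero_sub, norm_neg, Complex.norm_real, Real.norm_eq_abs, abs_mul]
    norm_num; linarith

lemma log_gap : Real.log 17 + 1 / 2 ≤ Real.log 39 := by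
  have h := Real.one_sub_inv_le_log_of_pos (x := 39 / 17) (by norm_num)
  rw [Real.log_div (by norm_num) (by norm_num)] at h
  norm_num at h
  linarith

end Pool.Agent.P.MP_41df0b_an
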