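import Pool.Agent.P.MP_41df0b_an.Domain

/-!
The greedy scheme producing two different profiles with the same function `AA`.
-/

set_option autoImplicit false

open Function Filter Metric Set Complex
open scoped Topology

namespace Pool.Agent.P.MP_41df0b_an

/-- Lower the profile to the constant `η` on the right of `s`. -/
noncomputable def cut (h : ℝ → ℝ) (s η : ℝ) : ℝ → ℝ := fun x => if x ≤ s then h x else η

lemma cut_left (h : ℝ → ℝ) {s x : ℝ} (η : ℝ) (hx : x ≤ s) : cut h s η x = h x := if_pos hx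

lemma cut_right (h : ℝ → ℝ) {s x : ℝ} (η : ℝ) (hx : s < x) : cut h s η x = η :=
  if_neg (not_le.2 hx)

lemma Prof.cut {h : ℝ → ℝ} (hh : Prof h) {s η : ℝ} (h1 : 4 ≤ η) (h2 : η ≤ h s) :
    Prof (cut h s η) := by
  refine ⟨fun x y hxy => ?_, fun x => ?_, fun x => ?_⟩
  · rcases le_or_gt y s with hy | hy
    · rw [cut_left h η hy, cut_left h η (hxy.trans hy)]; exact hh.anti hxy
    · rw [cut_right h η hy]
      rcases le_or_gt x s with hx | hx
      · rw [cut_left h η hx]; exact h2.trans (hh.anti hx)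
      · rw [cut_right h η hx]
  · rcases le_or_gt x s with hx | hx
    · rw [cut_left h η hx]; exact hh.lo x
    · rw [cut_right h η hx]; exact h1
  · rcases le_or_gt x s with hx | hx
    · rw [cut_left h η hx]; exact hh.hi x
    · rw [cut_right h η hx]; exact h2.trans (hh.hi s)

lemma cut_close {h : ℝ → ℝ} (hh : Prof h) {s t a b ρ : ℝ} (ha : a ∈ Icc 4 (h s))
    (hb : b ∈ Icc 4 (h s)) (hρ0 : 0 ≤ ρ) (hρ : ρ ≤ 1) (hab : |a - b| ≤ ρ ^ 2 / 4) :
    AA (cut h s a) t ≤ AA (cut h s b) t + 2 * ρ := by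
  refine close (hh.cut ha.1 ha.2) (hh.cut hb.1 hb.2) (ε := ρ ^ 2 / 4) (by positivity) hρ0 hρ
    (by linarith) (by simp; positivity) (fun σ => ?_) (by simp) (2 * t)
  have h1 : cut h s a (min (σ + ρ ^ 2 / 4) t) ≤ cut h s a (min σ t) :=
    (hh.cut ha.1 ha.2).anti (min_le_min_right _ (by nlinarith [sq_nonneg ρ]))
  refine h1.trans ?_
  rcases le_or_gt (min σ t) s with hx | hx
  · rw [cut_left h _ hx, cut_left h _ hx]; nlinarith [sq_nonneg ρ]
  · rw [cut_right h _ hx, cut_right h _ hx]; linarith [(abs_le.1 hab).2]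

lemma cut_continuousOn {h : ℝ → ℝ} (hh : Prof h) (s t : ℝ) :
    ContinuousOn (fun η => AA (cut h s η) t) (Icc 4 (h s)) := by
  rw [Metric.continuousOn_iff]
  intro b hb ε hε
  refine ⟨(min 1 (ε / 4)) ^ 2 / 4, by positivity, fun a ha hab => ?_⟩
  rw [Real.dist_eq] at hab ⊢
  have h1 := cut_close hh (t := t) ha hb (ρ := min 1 (ε / 4)) (by positivity) (min_le_left _ _)
    hab.le
  have h2 := cut_close hh (t := t) hb ha (ρ := min 1 (ε / 4)) (by positivity) (min_le_left _ _)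
    (by rw [abs_sub_comm]; exact hab.le)
  have h3 := min_le_right 1 (ε / 4)
  rw [abs_lt]
  constructor <;> linarith

lemma cut_ivt {h : ℝ → ℝ} (hh : Prof h) {s t η₁ y : ℝ} (hst : s < t) (ht : |t| ≤ 1 / 8)
    (h1 : η₁ ∈ Icc 4 (h s)) (hy1 : Real.log 17 ≤ y) (hy2 : y ≤ AA (cut h s η₁) t) :
    ∃ η ∈ Icc 4 η₁, AA (cut h s η) t = y := by
  have hc := (cut_continuousOn hh s t).mono (Icc_subset_Icc_right h1.2)
  have h4 := AA_neck (hh.cut (s := s) le_rfl (hh.lo s)) ht (cut_right h 4 hst)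
  exact intermediate_value_Icc h1.1 hc ⟨h4.trans hy1, hy2⟩

lemma half_le_pow {Δ : ℝ} (h0 : 0 < Δ) {n : ℕ} (hn : (n : ℝ) * Δ ≤ 1 / 64) (h1 : Δ ≤ 1 / 64) :
    1 / 2 ≤ (1 - 32 * Δ) ^ n := by
  have := one_add_mul_le_pow (a := -(32 * Δ)) (by linarith) n
  rw [← sub_eq_add_neg] at this
  nlinarith

/-- The first decrement of a profile which is flat near the origin. -/
lemma first_step {h : ℝ → ℝ} (hh : Prof h) {η Δ : ℝ} (hflat : ∀ x, -1 < x → h x = η)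
    (hΔ : 0 < Δ) {N : ℕ} (hN : (N : ℝ) * Δ = 1 / 64) :
    AA h (-Δ) - AA h 0 + 192 * Δ ≤ 1152 * Δ := by
  have hN0 : N ≠ 0 := by rintro rfl; simp at hN
  have hN1 : (1 : ℝ) ≤ N := by exact_mod_cast Nat.one_le_iff_ne_zero.2 hN0
  have hΔ' : Δ ≤ 1 / 64 := by nlinarith
  set a : ℕ → ℝ := fun i => AA h (-(i * Δ)) with ha
  set F : ℕ → ℝ := fun i => a (i + 1) - a i + 192 * Δ with hF
  have hstep : ∀ i : ℕ, i < N → F i * (1 - 32 * Δ) ≤ F (i + 1) := by
    intro i hi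
    have hi' : (i : ℝ) + 1 ≤ N := by exact_mod_cast hi
    have hi0 : (0 : ℝ) ≤ i := Nat.cast_nonneg i
    have := semiconvex hh (t := -((i + 1 : ℕ) * Δ)) (η := η) hΔ hΔ'
      (by push_cast; rw [abs_le]; constructor <;> nlinarith)
      (fun x hx => hflat x (by push_cast at hx; nlinarith))
    have e1 : -(((i + 1 : ℕ) : ℝ) * Δ) + Δ = -(i * Δ) := by push_cast; ring
    have e2 : -(((i + 1 : ℕ) : ℝ) * Δ) - Δ = -((i + 1 + 1 : ℕ) * Δ) := by push_cast; ring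
    rw [e1, e2] at this
    exact this
  have hpow : ∀ i : ℕ, i ≤ N → F 0 * (1 - 32 * Δ) ^ i ≤ F i := by
    intro i
    induction i with
    | zero => simp
    | succ i ih =>
      intro hi
      have h1 := ih (by omega)
      have h2 := hstep i (by omega)
      have h3 : 0 ≤ 1 - 32 * Δ := by linarith
      calc F 0 * (1 - 32 * Δ) ^ (i + 1) = F 0 * (1 - 32 * Δ) ^ i * (1 - 32 * Δ) := by ring
        _ ≤ F i * (1 - 32 * Δ) := by gcongr
        _ ≤ _ := h2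
  have e0 : AA h (-Δ) - AA h 0 + 192 * Δ = F 0 := by simp [hF, ha]
  rw [e0]
  by_contra hcon
  push Not at hcon
  have hF0 : 0 < F 0 := by linarith
  have hsum : ∑ i ∈ Finset.range N, F i = a N - a 0 + N * (192 * Δ) := by
    simp only [hF, Finset.sum_add_distrib, Finset.sum_range_sub, Finset.sum_const,
      Finset.card_range, nsmul_eq_mul]
  have hlow : N * (F 0 / 2) ≤ ∑ i ∈ Finset.range N, F i := by
    have := Finset.card_nsmul_le_sum (Finset.range N) F (F 0 / 2) fun i hi => by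
      have hi' : i ≤ N := (Finset.mem_range.1 hi).le
      have hi'' : (i : ℝ) ≤ N := by exact_mod_cast hi'
      have h1 := half_le_pow hΔ (n := i) (by nlinarith) hΔ'
      have h2 := hpow i hi'
      nlinarith
    simpa using this
  have b1 : a N ≤ 6 := (AA_bounds hh (by rw [hN]; norm_num [abs_le])).2
  have b2 : 0 ≤ a 0 := (AA_bounds hh (by simp)).1
  nlinarith

/-- The invariant of the greedy scheme. -/
structure Inv (L₁ L₂ : ℝ → ℝ) (Δ : ℝ) (j : ℕ) (h₁ h₂ : ℝ → ℝ) : Prop where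
  p1 : Prof h₁
  p2 : Prof h₂
  l1 : ∀ x ≤ 0, h₁ x = L₁ x
  l2 : ∀ x ≤ 0, h₂ x = L₂ x
  f1 : ∃ η, ∀ x, j * Δ - Δ < x → h₁ x = η
  f2 : ∃ η, ∀ x, j * Δ - Δ < x → h₂ x = η
  eq : ∀ i : ℕ, i ≤ j → AA h₁ (i * Δ) = AA h₂ (i * Δ)
  low : Real.log 39 ≤ AA h₁ 0
  dec : ∀ i i' : ℕ, i ≤ i' → i' ≤ j → AA h₁ (i * Δ) - AA h₁ (i' * Δ) ≤ 2304 * (i' * Δ - i * Δ)
  g1 : (AA h₁ (j * Δ - Δ) - AA h₁ (j * Δ) + 192 * Δ) * (1 - 32 * Δ) ^ j ≤ 1152 * Δ
  g2 : (AA h₂ (j * Δ - Δ) - AA h₂ (j * Δ) + 192 * Δ) * (1 - 32 * Δ) ^ j ≤ 1152 * Δ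

lemma Inv.symm {L₁ L₂ : ℝ → ℝ} {Δ : ℝ} {j : ℕ} {h₁ h₂ : ℝ → ℝ} (H : Inv L₁ L₂ Δ j h₁ h₂) :
    Inv L₂ L₁ Δ j h₂ h₁ := by
  refine ⟨H.p2, H.p1, H.l2, H.l1, H.f2, H.f1, fun i hi => (H.eq i hi).symm, ?_,
    fun i i' h1 h2 => ?_, H.g2, H.g1⟩
  · have := H.eq 0 (Nat.zero_le _)
    simp only [Nat.cast_zero, zero_mul] at this
    rw [← this]; exact H.low
  · rw [← H.eq i (h1.trans h2), ← H.eq i' h2]; exact H.dec i i' h1 h2

lemma Inv.step_of_le {L₁ L₂ : ℝ → ℝ} {Δ : ℝ} {j : ℕ} {h₁ h₂ : ℝ → ℝ} (H : Inv L₁ L₂ Δ j h₁ h₂)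
    (hΔ : 0 < Δ) (hj : ((j : ℝ) + 1) * Δ ≤ 1 / 6400)
    (hle : AA h₁ (j * Δ + Δ) ≤ AA h₂ (j * Δ + Δ)) :
    ∃ h₂', Inv L₁ L₂ Δ (j + 1) h₁ h₂' := by
  have hj0 : (0 : ℝ) ≤ j := Nat.cast_nonneg j
  have hjΔ : 0 ≤ (j : ℝ) * Δ := by positivity
  have hΔ' : Δ ≤ 1 / 64 := by nlinarith
  obtain ⟨η₁, hη₁⟩ := H.f1
  obtain ⟨η₂, hη₂⟩ := H.f2
  have e1 : ((j + 1 : ℕ) : ℝ) * Δ = j * Δ + Δ := by push_cast; ring
  have e2 : (j : ℝ) * Δ + Δ - Δ = j * Δ := by ring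
  have sc := semiconvex H.p1 (t := j * Δ) hΔ hΔ' (by rw [abs_le]; constructor <;> nlinarith) hη₁
  have hpos : 0 ≤ 1 - 32 * Δ := by linarith
  have hg : (AA h₁ (j * Δ) - AA h₁ (j * Δ + Δ) + 192 * Δ) * (1 - 32 * Δ) ^ (j + 1) ≤ 1152 * Δ := by
    refine le_trans ?_ H.g1
    rw [pow_succ', ← mul_assoc]
    gcongr
  have hhalf := half_le_pow hΔ (n := j + 1) (by push_cast; linarith) hΔ'
  have hdec : AA h₁ (j * Δ) - AA h₁ (j * Δ + Δ) ≤ 2304 * Δ := by
    by_contra hcon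
    push Not at hcon
    nlinarith
  have hd0 := H.dec 0 j (Nat.zero_le _) le_rfl
  simp only [Nat.cast_zero, zero_mul, sub_zero] at hd0
  have hη₂' : h₂ (j * Δ) = η₂ := hη₂ _ (by linarith)
  have hcut : cut h₂ (j * Δ) η₂ = h₂ := by
    funext x
    rcases le_or_gt x (j * Δ) with hx | hx
    · exact cut_left _ _ hx
    · rw [cut_right _ _ hx, hη₂ x (by linarith)]
  obtain ⟨η, hη, hA⟩ := cut_ivt H.p2 (s := j * Δ) (t := j * Δ + Δ) (η₁ := η₂)
    (y := AA h₁ (j * Δ + Δ)) (by linarith) (by rw [abs_le]; constructor <;> nlinarith)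
    ⟨hη₂' ▸ H.p2.lo _, hη₂'.ge⟩ (by linarith [H.low, log_gap]) (by rwa [hcut])
  have hcongr : ∀ t ≤ (j : ℝ) * Δ, AA (cut h₂ (j * Δ) η) t = AA h₂ t := fun t ht =>
    AA_congr fun x hx => cut_left _ _ (hx.trans ht)
  refine ⟨cut h₂ (j * Δ) η, H.p1, H.p2.cut hη.1 (hη.2.trans hη₂'.ge), H.l1,
    fun x hx => by rw [cut_left _ _ (hx.trans hjΔ), H.l2 x hx],
    ⟨η₁, fun x hx => hη₁ x (by rw [e1] at hx; linarith)⟩,
    ⟨η, fun x hx => cut_right _ _ (by rw [e1] at hx; linarith)⟩, fun i hi => ?_, H.low,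
    fun i i' h1 h2 => ?_, ?_, ?_⟩
  · rcases Nat.lt_or_eq_of_le hi with hi | rfl
    · have hi' : i ≤ j := by omega
      have : (i : ℝ) ≤ j := by exact_mod_cast hi'
      rw [hcongr _ (by gcongr), H.eq i hi']
    · rw [e1, hA]
  · rcases Nat.lt_or_eq_of_le h2 with h2 | rfl
    · exact H.dec i i' h1 (by omega)
    · rcases Nat.lt_or_eq_of_le h1 with h1 | rfl
      · have := H.dec i j (by omega) le_rfl
        rw [e1]; linarith
      · simp
  · rw [e1, e2]; exact hg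
  · rw [e1, e2, hA, hcongr _ le_rfl, ← H.eq j le_rfl]; exact hg

lemma Inv.step {L₁ L₂ : ℝ → ℝ} {Δ : ℝ} {j : ℕ} {h₁ h₂ : ℝ → ℝ} (H : Inv L₁ L₂ Δ j h₁ h₂)
    (hΔ : 0 < Δ) (hj : ((j : ℝ) + 1) * Δ ≤ 1 / 6400) :
    ∃ h₁' h₂', Inv L₁ L₂ Δ (j + 1) h₁' h₂' := by
  rcases le_total (AA h₁ (j * Δ + Δ)) (AA h₂ (j * Δ + Δ)) with h | h
  · obtain ⟨h', H'⟩ := H.step_of_le hΔ hj h
    exact ⟨_, _, H'⟩
  · obtain ⟨h', H'⟩ := H.symm.step_of_le hΔ hj h
    exact ⟨_, _, H'.symm⟩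

/-- The mesh. -/
noncomputable def mesh (n : ℕ) : ℝ := 1 / (6400 * ((n : ℝ) + 1))

lemma mesh_pos (n : ℕ) : 0 < mesh n := by unfold mesh; positivity

lemma mesh_mul (n : ℕ) : ((n : ℝ) + 1) * mesh n = 1 / 6400 := by unfold mesh; field_simp

lemma exists_scheme : ∃ L₁ L₂ : ℝ → ℝ, (∀ x, L₁ x = 40) ∧ L₂ (-2) = 80 ∧ L₂ (-3) = 80 ∧
    ∀ n : ℕ, ∃ h₁ h₂, Inv L₁ L₂ (mesh n) (n + 1) h₁ h₂ := by
  have P40 : Prof (fun _ => 40) := ⟨fun _ _ _ => le_rfl, fun _ => by norm_num, fun _ => by norm_num⟩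
  have P80 : Prof (fun _ => 80) := ⟨fun _ _ _ => le_rfl, fun _ => by norm_num, fun _ => by norm_num⟩
  have w40 := AA_wide P40 (t := 0) (by simp) fun _ => le_rfl
  have hc80 : cut (fun _ => 80) (-1) 80 = fun _ => 80 := by
    funext x; simp [cut]
  obtain ⟨η, hη, hA⟩ := cut_ivt P80 (s := -1) (t := 0) (η₁ := 80) (y := AA (fun _ => 40) 0)
    (by norm_num) (by simp) ⟨by norm_num, le_rfl⟩ (by linarith [log_gap]) (by
      rw [hc80]
      refine (P40.dom 0).good.mono (P80.dom 0).good ?_ (P40.mem _ (by simp)) (P40.mem _ (by simp))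
      rintro z ⟨s, hs, hs'⟩
      exact ⟨s, hs, by linarith⟩)
  have PL := P80.cut (s := -1) hη.1 hη.2
  refine ⟨fun _ => 40, cut (fun _ => 80) (-1) η, fun _ => rfl, cut_left _ _ (by norm_num),
    cut_left _ _ (by norm_num), fun n => ?_⟩
  have hΔ := mesh_pos n
  have hm := mesh_mul n
  have hn0 : (0 : ℝ) ≤ n := Nat.cast_nonneg n
  have hN : ((100 * (n + 1) : ℕ) : ℝ) * mesh n = 1 / 64 := by push_cast; linarith
  have key : ∀ j : ℕ, j ≤ n + 1 →
      ∃ h₁ h₂, Inv (fun _ => 40) (cut (fun _ => 80) (-1) η) (mesh n) j h₁ h₂ := by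
    intro j
    induction j with
    | zero =>
      intro _
      refine ⟨_, _, P40, PL, fun _ _ => rfl, fun _ _ => rfl, ⟨40, fun _ _ => rfl⟩,
        ⟨η, fun x hx => cut_right _ _ (by simp at hx; nlinarith)⟩, fun i hi => ?_, w40,
        fun i i' h1 h2 => ?_, ?_, ?_⟩
      · obtain rfl : i = 0 := by omega
        simpa using hA.symm
      · obtain rfl : i' = 0 := by omega
        obtain rfl : i = 0 := by omega
        simp
      · simpa using first_step P40 (η := 40) (fun _ _ => rfl) hΔ hN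
      · simpa using first_step PL (η := η) (fun x hx => cut_right _ _ hx) hΔ hN
    | succ j ih =>
      intro hj
      obtain ⟨h₁, h₂, H⟩ := ih (by omega)
      have : (j : ℝ) ≤ n := by exact_mod_cast (by omega : j ≤ n)
      exact H.step hΔ (by nlinarith)
  exact key _ le_rfl

/-- Closeness of a sequence of profiles to a limit profile. -/
def Levy (l : Filter ℕ) (h : ℕ → ℝ → ℝ) (g : ℝ → ℝ) : Prop :=
  ∀ δ > 0, ∀ᶠ n in l, ∀ x ≤ 1, g (x + δ) ≤ h n x + δ ∧ h n (x + δ) ≤ g x + δ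

lemma exists_limit (l : Ultrafilter ℕ) {h : ℕ → ℝ → ℝ} (hP : ∀ n, Prof (h n)) {L : ℝ → ℝ}
    (hL : ∀ n, ∀ x ≤ 0, h n x = L x) :
    ∃ g, Prof g ∧ Levy l h g ∧ (∀ t y, (∀ s < t, y ≤ g s) → y ≤ g t) ∧
      ∀ x ≤ 0, L x ≤ g x ∧ ∀ y < x, g x ≤ L y := by
  have h1 : ∀ x, ∃ w ∈ Icc (4 : ℝ) 80, Tendsto (fun n => h n x) l (𝓝 w) := fun x =>
    isCompact_Icc.ultrafilter_le_nhds (l.map (fun n => h n x)) (by
      rw [le_principal_iff]
      exact Filter.mem_map.2 (Eventually.of_forall fun n => ⟨(hP n).lo x, (hP n).hi x⟩))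
  choose g₀ hg₀ hlim using h1
  have hanti : Antitone g₀ := fun x y hxy =>
    le_of_tendsto_of_tendsto' (hlim y) (hlim x) fun n => (hP n).anti hxy
  have hL0 : ∀ x ≤ 0, g₀ x = L x := fun x hx => by
    have := hlim x
    rw [show (fun n => h n x) = fun _ => L x from funext fun n => hL n x hx] at this
    exact tendsto_nhds_unique this tendsto_const_nhds
  set g : ℝ → ℝ := fun x => sInf (g₀ '' Iio x) with hg
  have hne : ∀ x : ℝ, (g₀ '' Iio x).Nonempty := fun x => ⟨_, x - 1, by simp, rfl⟩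
  have hbdd : ∀ x : ℝ, BddBelow (g₀ '' Iio x) := fun x =>
    ⟨4, by rintro _ ⟨y, -, rfl⟩; exact (hg₀ y).1⟩
  have hle : ∀ x y, y < x → g x ≤ g₀ y := fun x y hy => csInf_le (hbdd x) ⟨y, hy, rfl⟩
  have hge : ∀ x c, (∀ y < x, c ≤ g₀ y) → c ≤ g x := fun x c hc =>
    le_csInf (hne x) (by rintro _ ⟨y, hy, rfl⟩; exact hc y hy)
  have hge' : ∀ x, g₀ x ≤ g x := fun x => hge x _ fun y hy => hanti hy.le
  refine ⟨g, ⟨fun x y hxy => hge x _ fun z hz => hle y z (hz.trans_le hxy),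
    fun x => (hg₀ x).1.trans (hge' x), fun x => (hle x (x - 1) (by linarith)).trans (hg₀ _).2⟩,
    fun δ hδ => ?_, fun t y hy => hge t y fun s hs => ?_, fun x hx => ⟨hL0 x hx ▸ hge' x,
      fun y hy => hL0 y (by linarith) ▸ hle x y hy⟩⟩
  · have hK := (isCompact_Icc (a := (0 : ℝ)) (b := 1)).mem_prod_nhdsSet_of_forall
      (l := (l : Filter ℕ))
      (s := {p : ℕ × ℝ | g (p.2 + δ) ≤ h p.1 p.2 + δ ∧ h p.1 (p.2 + δ) ≤ g p.2 + δ}) (by
        intro x₀ _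
        have a1 := Metric.tendsto_nhds.1 (hlim (x₀ + δ / 2)) δ hδ
        have a2 : Ioo (x₀ - δ / 2) (x₀ + δ / 2) ∈ 𝓝 x₀ := Ioo_mem_nhds (by linarith) (by linarith)
        refine mem_of_superset (prod_mem_prod a1 a2) ?_
        rintro ⟨n, x⟩ ⟨b1, b2, b3⟩
        simp only [mem_ofPred_eq, Real.dist_eq, abs_lt] at b1 b2 b3 ⊢
        have c1 := hle (x + δ) (x₀ + δ / 2) (by linarith)
        have c2 : h n (x₀ + δ / 2) ≤ h n x := (hP n).anti b3.le
        have c3 : h n (x + δ) ≤ h n (x₀ + δ / 2) := (hP n).anti (by linarith)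
        have c4 : g₀ (x₀ + δ / 2) ≤ g₀ x := hanti b3.le
        have c5 := hge' x
        constructor <;> linarith [b1.1, b1.2])
    obtain ⟨A, hA, B, hB, hAB⟩ := mem_prod_iff.1 hK
    filter_upwards [hA] with n hn x hx
    rcases le_total x 0 with h0 | h0
    · have c1 := hle (x + δ) x (by linarith)
      have c2 : h n (x + δ) ≤ h n x := (hP n).anti (by linarith)
      have c3 := hge' x
      rw [hL0 x h0, ← hL n x h0] at c1 c3
      constructor <;> linarith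
    · exact hAB (mk_mem_prod hn (subset_of_mem_nhdsSet hB ⟨h0, hx⟩))
  · exact (hy ((s + t) / 2) (by linarith)).trans (hle _ _ (by linarith))

lemma limit_le {L₁ L₂ : ℝ → ℝ} {h₁ h₂ : ℕ → ℝ → ℝ}
    (H : ∀ n, Inv L₁ L₂ (mesh n) (n + 1) (h₁ n) (h₂ n)) {g₁ g₂ : ℝ → ℝ} (p1 : Prof g₁)
    (p2 : Prof g₂) (v1 : Levy (hyperfilter ℕ) h₁ g₁) (v2 : Levy (hyperfilter ℕ) h₂ g₂) {t : ℝ}
    (ht0 : 0 < t) (ht : t ≤ 1 / 12800) : AA g₁ t ≤ AA g₂ t := by
  have key : ∀ ρ, 0 < ρ → ρ ≤ t → AA g₁ t ≤ AA g₂ t + 5 * ρ := by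
    intro ρ hρ0 hρ
    set δ := ρ ^ 2 / 8 with hδ
    have hδ0 : 0 < δ := by positivity
    have hδρ : 6400 * δ ≤ ρ := by nlinarith
    have hm : ∀ᶠ n in (hyperfilter ℕ : Filter ℕ), mesh n ≤ δ := by
      refine (hyperfilter_le_cofinite.trans Nat.cofinite_eq_atTop.le) ?_
      obtain ⟨N, hN⟩ := exists_nat_one_div_lt hδ0
      filter_upwards [eventually_ge_atTop N] with n hn
      have : (N : ℝ) ≤ n := by exact_mod_cast hn
      refine le_trans ?_ hN.le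
      unfold mesh
      gcongr
      have : (0 : ℝ) ≤ n := Nat.cast_nonneg n
      linarith
    obtain ⟨n, ⟨w1, w2⟩, hn⟩ := (((v1 δ hδ0).and (v2 δ hδ0)).and hm).exists
    have hΔ := mesh_pos n
    have hmm := mesh_mul n
    set Δ := mesh n with hΔdef
    set i := ⌊(t - δ) / Δ⌋₊ with hi
    set i' := ⌈(t + δ) / Δ⌉₊ with hi'
    have i1 : (i : ℝ) * Δ ≤ t - δ := by
      rw [← le_div_iff₀ hΔ]; exact Nat.floor_le (div_nonneg (by linarith) hΔ.le)
    have i2 : t - δ < (i + 1) * Δ := by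
      rw [← div_lt_iff₀ hΔ]; exact Nat.lt_floor_add_one _
    have i3 : t + δ ≤ (i' : ℝ) * Δ := by
      rw [← div_le_iff₀ hΔ]; exact Nat.le_ceil _
    have i4 : (i' : ℝ) * Δ < t + δ + Δ := by
      have := Nat.ceil_lt_add_one (div_nonneg (by linarith : 0 ≤ t + δ) hΔ.le)
      rw [← hi', div_add_one hΔ.ne', lt_div_iff₀ hΔ] at this
      exact this
    have i0 : 0 ≤ (i : ℝ) * Δ := by positivity
    have hii : i ≤ i' := by
      have : (i : ℝ) * Δ ≤ i' * Δ := by linarith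
      exact_mod_cast le_of_mul_le_mul_right this hΔ
    have hin : i' ≤ n + 1 := by
      have : (i' : ℝ) * Δ ≤ (n + 1) * Δ := by linarith
      exact_mod_cast le_of_mul_le_mul_right this hΔ
    have a1 := AA_close p1 (H n).p1 (t := t) (t' := i * Δ) (ε := 2 * δ) (ρ := ρ) (by linarith)
      hρ0.le (by linarith) (by linarith) (by rw [abs_le]; constructor <;> linarith)
      (by rw [abs_le]; constructor <;> linarith) fun s => by
        have c1 := (w1 (min s (i * Δ)) ((min_le_right _ _).trans (by linarith))).1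
        have c2 : g₁ (min (s + 2 * δ) t) ≤ g₁ (min s (i * Δ) + δ) := p1.anti (by
          rw [← min_add_add_right]; exact min_le_min (by linarith) (by linarith))
        linarith
    have a2 := AA_close (H n).p2 p2 (t := i' * Δ) (t' := t) (ε := 2 * δ) (ρ := ρ) (by linarith)
      hρ0.le (by linarith) (by linarith) (by rw [abs_le]; constructor <;> linarith)
      (by rw [abs_le]; constructor <;> linarith) fun s => by
        have c1 := (w2 (min s t) ((min_le_right _ _).trans (by linarith))).2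
        have c2 : h₂ n (min (s + 2 * δ) (i' * Δ)) ≤ h₂ n (min s t + δ) := (H n).p2.anti (by
          rw [← min_add_add_right]; exact min_le_min (by linarith) (by linarith))
        linarith
    have a3 := (H n).dec i i' hii hin
    have a4 := (H n).eq i' hin
    nlinarith
  refine le_of_forall_pos_le_add fun ε hε => ?_
  have := key (min t (ε / 5)) (by positivity) (min_le_left _ _)
  linarith [min_le_right t (ε / 5)]

/-- Two different left continuous profiles with the same `AA` on an interval. -/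
theorem exists_profiles : ∃ g₁ g₂ : ℝ → ℝ, Prof g₁ ∧ Prof g₂ ∧
    (∀ t y, (∀ s < t, y ≤ g₁ s) → y ≤ g₁ t) ∧ (∀ t y, (∀ s < t, y ≤ g₂ s) → y ≤ g₂ t) ∧
    g₁ (-3) ≤ 40 ∧ 80 ≤ g₂ (-2) ∧ ∀ t, 0 < t → t ≤ 1 / 12800 → AA g₁ t = AA g₂ t := by
  obtain ⟨L₁, L₂, e1, e2, -, H⟩ := exists_scheme
  choose h₁ h₂ H using H
  obtain ⟨g₁, p1, v1, c1, d1⟩ := exists_limit (hyperfilter ℕ) (fun n => (H n).p1) fun n => (H n).l1
  obtain ⟨g₂, p2, v2, c2, d2⟩ := exists_limit (hyperfilter ℕ) (fun n => (H n).p2) fun n => (H n).l2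
  refine ⟨g₁, g₂, p1, p2, c1, c2, e1 (-4) ▸ (d1 (-3) (by norm_num)).2 _ (by norm_num),
    e2 ▸ (d2 (-2) (by norm_num)).1, fun t h0 h1 => le_antisymm (limit_le H p1 p2 v1 v2 h0 h1)
      (limit_le (fun n => (H n).symm) p2 p1 v2 v1 h0 h1)⟩

end Pool.Agent.P.MP_41df0b_an
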