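import Pool.Agent.P.MP_41df0b_an.Link
import Pool.Agent.P.MP_41df0b_an.Scheme

/-!
The greedy scheme run on an arbitrary family of profiles at once.
-/

set_option autoImplicit false

open Function Filter Metric Set Complex
open scoped Topology

namespace Pool.Agent.P.MP_41df0b_an

lemma fam_step {ι : Type} [Nonempty ι] {P : ι → ℝ → ℝ} {Δ : ℝ} {j : ℕ} {h : ι → ℝ → ℝ}
    (H : ∀ i i', Inv (P i) (P i') Δ j (h i) (h i')) (hΔ : 0 < Δ)
    (hj : ((j : ℝ) + 1) * Δ ≤ 1 / 6400) :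
    ∃ h' : ι → ℝ → ℝ, ∀ i i', Inv (P i) (P i') Δ (j + 1) (h' i) (h' i') := by
  have hj0 : (0 : ℝ) ≤ j := Nat.cast_nonneg j
  have hjΔ : 0 ≤ (j : ℝ) * Δ := by positivity
  have hΔ' : Δ ≤ 1 / 64 := by nlinarith
  have e1 : ((j + 1 : ℕ) : ℝ) * Δ = j * Δ + Δ := by push_cast; ring
  have e2 : (j : ℝ) * Δ + Δ - Δ = j * Δ := by ring
  have hpos : 0 ≤ 1 - 32 * Δ := by linarith
  have hhalf := half_le_pow hΔ (n := j + 1) (by push_cast; linarith) hΔ'
  have hg : ∀ i, (AA (h i) (j * Δ) - AA (h i) (j * Δ + Δ) + 192 * Δ) * (1 - 32 * Δ) ^ (j + 1) ≤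
      1152 * Δ := by
    intro i
    obtain ⟨η₁, hη₁⟩ := (H i i).f1
    have sc := semiconvex (H i i).p1 (t := j * Δ) hΔ hΔ'
      (by rw [abs_le]; constructor <;> nlinarith) hη₁
    refine le_trans ?_ (H i i).g1
    rw [pow_succ', ← mul_assoc]
    gcongr
  have habs : |(j : ℝ) * Δ + Δ| ≤ 1 / 8 := by rw [abs_le]; constructor <;> nlinarith
  set y : ℝ := ⨅ i, AA (h i) (j * Δ + Δ) with hy
  have hbdd : BddBelow (range fun i => AA (h i) (j * Δ + Δ)) :=
    ⟨0, by rintro _ ⟨i, rfl⟩; exact (AA_bounds (H i i).p1 habs).1⟩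
  have hyle : ∀ i, y ≤ AA (h i) (j * Δ + Δ) := fun i => ciInf_le hbdd i
  have hq : 0 < (1 - 32 * Δ) ^ (j + 1) := by linarith
  have hgy : ∀ i, (AA (h i) (j * Δ) - y + 192 * Δ) * (1 - 32 * Δ) ^ (j + 1) ≤ 1152 * Δ := by
    intro i
    have : AA (h i) (j * Δ) + 192 * Δ - 1152 * Δ / (1 - 32 * Δ) ^ (j + 1) ≤ y := by
      refine le_ciInf fun i' => ?_
      have h1 := hg i'
      rw [← le_div_iff₀ hq, ← (H i i').eq j le_rfl] at h1
      linarith
    rw [← le_div_iff₀ hq]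
    linarith
  have hdec : ∀ i, AA (h i) (j * Δ) - y ≤ 2304 * Δ := by
    intro i
    have := hgy i
    by_contra hcon
    push Not at hcon
    nlinarith
  have hex : ∀ i, ∃ η, Prof (cut (h i) (j * Δ) η) ∧ AA (cut (h i) (j * Δ) η) (j * Δ + Δ) = y := by
    intro i
    obtain ⟨η₂, hη₂⟩ := (H i i).f1
    have hη₂' : h i (j * Δ) = η₂ := hη₂ _ (by linarith)
    have hcut : cut (h i) (j * Δ) η₂ = h i := by
      funext x
      rcases le_or_gt x (j * Δ) with hx | hx
      · exact cut_left _ _ hx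
      · rw [cut_right _ _ hx, hη₂ x (by linarith)]
    have hd0 := (H i i).dec 0 j (Nat.zero_le _) le_rfl
    simp only [Nat.cast_zero, zero_mul, sub_zero] at hd0
    obtain ⟨η, hη, hA⟩ := cut_ivt (H i i).p1 (s := j * Δ) (t := j * Δ + Δ) (η₁ := η₂) (y := y)
      (by linarith) habs ⟨hη₂' ▸ (H i i).p1.lo _, hη₂'.ge⟩
      (by linarith [(H i i).low, log_gap, hdec i]) (by rw [hcut]; exact hyle i)
    exact ⟨η, (H i i).p1.cut hη.1 (hη.2.trans hη₂'.ge), hA⟩
  choose η hP hA using hex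
  have hcongr : ∀ i, ∀ t ≤ (j : ℝ) * Δ, AA (cut (h i) (j * Δ) (η i)) t = AA (h i) t :=
    fun i t ht => AA_congr fun x hx => cut_left _ _ (hx.trans ht)
  have hk : ∀ k : ℕ, k ≤ j → (k : ℝ) * Δ ≤ j * Δ := fun k hk => by
    have : (k : ℝ) ≤ j := by exact_mod_cast hk
    gcongr
  refine ⟨fun i => cut (h i) (j * Δ) (η i), fun i i' => ⟨hP i, hP i',
    fun x hx => (cut_left _ _ (hx.trans hjΔ)).trans ((H i i').l1 x hx),
    fun x hx => (cut_left _ _ (hx.trans hjΔ)).trans ((H i i').l2 x hx),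
    ⟨η i, fun x hx => cut_right _ _ (by rw [e1] at hx; linarith)⟩,
    ⟨η i', fun x hx => cut_right _ _ (by rw [e1] at hx; linarith)⟩, fun k hk' => ?_, ?_,
    fun k k' h1 h2 => ?_, ?_, ?_⟩⟩
  · rcases Nat.lt_or_eq_of_le hk' with hk' | rfl
    · have hi' : k ≤ j := by omega
      rw [hcongr _ _ (hk k hi'), hcongr _ _ (hk k hi'), (H i i').eq k hi']
    · rw [e1, hA, hA]
  · rw [hcongr _ _ hjΔ]; exact (H i i').low
  · rcases Nat.lt_or_eq_of_le h2 with h2 | rfl
    · rw [hcongr _ _ (hk k (by omega)), hcongr _ _ (hk k' (by omega))]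
      exact (H i i').dec k k' h1 (by omega)
    · rcases Nat.lt_or_eq_of_le h1 with h1 | rfl
      · have := (H i i').dec k j (by omega) le_rfl
        rw [e1, hA, hcongr _ _ (hk k (by omega))]
        linarith [hdec i]
      · simp
  · rw [e1, e2, hA, hcongr _ _ le_rfl]; exact hgy i
  · rw [e1, e2, hA, hcongr _ _ le_rfl]; exact hgy i'

lemma fam_scheme {ι : Type} [Nonempty ι] {L : ι → ℝ → ℝ} (hL : ∀ i, Prof (L i))
    (h40 : ∀ i x, 40 ≤ L i x) :
    ∃ P : ι → ℝ → ℝ, (∀ i, ∀ x ≤ -1, P i x = L i x) ∧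
      ∀ n : ℕ, ∃ h : ι → ℝ → ℝ, ∀ i i', Inv (P i) (P i') (mesh n) (n + 1) (h i) (h i') := by
  have P40 : Prof (fun _ => 40) := ⟨fun _ _ _ => le_rfl, fun _ => by norm_num, fun _ => by norm_num⟩
  have w40 := AA_wide P40 (t := 0) (by simp) fun _ => le_rfl
  have hex : ∀ i, ∃ η, Prof (cut (L i) (-1) η) ∧ AA (cut (L i) (-1) η) 0 = AA (fun _ => 40) 0 := by
    intro i
    have pc := (hL i).cut (s := -1) (η := L i (-1)) ((hL i).lo _) le_rfl
    obtain ⟨η, hη, hA⟩ := cut_ivt (hL i) (s := -1) (t := 0) (η₁ := L i (-1))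
      (y := AA (fun _ => 40) 0) (by norm_num) (by simp) ⟨(hL i).lo _, le_rfl⟩
      (by linarith [log_gap]) (by
        refine (P40.dom 0).good.mono (pc.dom 0).good ?_ (P40.mem _ (by simp)) (P40.mem _ (by simp))
        rintro z ⟨s, hs, hs'⟩
        refine ⟨s, hs, hs'.trans_le ?_⟩
        unfold cut
        split_ifs <;> exact h40 _ _)
    exact ⟨η, (hL i).cut hη.1 hη.2, hA⟩
  choose η hP hA using hex
  refine ⟨fun i => cut (L i) (-1) (η i), fun i x hx => cut_left _ _ hx, fun n => ?_⟩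
  have hΔ := mesh_pos n
  have hm := mesh_mul n
  have hn0 : (0 : ℝ) ≤ n := Nat.cast_nonneg n
  have hN : ((100 * (n + 1) : ℕ) : ℝ) * mesh n = 1 / 64 := by push_cast; linarith
  have key : ∀ j : ℕ, j ≤ n + 1 → ∃ h : ι → ℝ → ℝ, ∀ i i',
      Inv (cut (L i) (-1) (η i)) (cut (L i') (-1) (η i')) (mesh n) j (h i) (h i') := by
    intro j
    induction j with
    | zero =>
      intro _
      refine ⟨fun i => cut (L i) (-1) (η i), fun i i' => ⟨hP i, hP i', fun _ _ => rfl,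
        fun _ _ => rfl, ⟨η i, fun x hx => cut_right _ _ (by simp at hx; nlinarith)⟩,
        ⟨η i', fun x hx => cut_right _ _ (by simp at hx; nlinarith)⟩, fun k hk => ?_,
        (hA i).symm ▸ w40, fun k k' h1 h2 => ?_, ?_, ?_⟩⟩
      · obtain rfl : k = 0 := by omega
        simpa using (hA i).trans (hA i').symm
      · obtain rfl : k' = 0 := by omega
        obtain rfl : k = 0 := by omega
        simp
      · simpa using first_step (hP i) (η := η i) (fun x hx => cut_right _ _ hx) hΔ hN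
      · simpa using first_step (hP i') (η := η i') (fun x hx => cut_right _ _ hx) hΔ hN
    | succ j ih =>
      intro hj
      obtain ⟨h, H⟩ := ih (by omega)
      have : (j : ℝ) ≤ n := by exact_mod_cast (by omega : j ≤ n)
      exact fam_step H hΔ (by nlinarith)
  exact key _ le_rfl

/-- Left continuous profiles with prescribed far left parts and the same `AA` on an interval. -/
theorem fam_profiles {ι : Type} [Nonempty ι] {L : ι → ℝ → ℝ} (hL : ∀ i, Prof (L i))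
    (h40 : ∀ i x, 40 ≤ L i x) :
    ∃ g : ι → ℝ → ℝ, (∀ i, Prof (g i)) ∧ (∀ i t y, (∀ s < t, y ≤ g i s) → y ≤ g i t) ∧
      (∀ i, ∀ x ≤ -1, L i x ≤ g i x ∧ ∀ y < x, g i x ≤ L i y) ∧
      ∀ i i' t, 0 < t → t ≤ 1 / 12800 → AA (g i) t = AA (g i') t := by
  obtain ⟨P, hP, H⟩ := fam_scheme hL h40
  choose h H using H
  have := fun i => exists_limit (hyperfilter ℕ) (h := fun n => h n i) (fun n => (H n i i).p1)
    (L := P i) fun n => (H n i i).l1
  choose g p v c d using this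
  refine ⟨g, p, c, fun i x hx => ⟨hP i x hx ▸ (d i x (by linarith)).1, fun y hy =>
    hP i y (by linarith) ▸ (d i x (by linarith)).2 y hy⟩, fun i i' t h0 h1 => le_antisymm
      (limit_le (fun n => H n i i') (p i) (p i') (v i) (v i') h0 h1)
      (limit_le (fun n => H n i' i) (p i') (p i) (v i') (v i) h0 h1)⟩

lemma VV_pos {ρ : ℝ} (h0 : 0 < ρ) (h1 : ρ < 1) : 0 < VV ρ := by
  have h := (arg_MM (w := ρ) (by rwa [Complex.norm_real, Real.norm_of_nonneg h0.le])
    (by simpa using h0.le)).2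
  unfold VV
  have hp := Real.pi_pos
  have : 2 / Real.pi * arg (MM ρ) < 2 / Real.pi * (Real.pi / 2) := by gcongr
  have e : 2 / Real.pi * (Real.pi / 2) = 1 := by field_simp
  linarith

end Pool.Agent.P.MP_41df0b_an
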