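import Pool.Agent.P.MP_41df0b_an.RMT

/-!
Green kernels of simply connected plane domains, written multiplicatively.
-/

set_option autoImplicit false

open Function Filter Metric Set Complex InnerProductSpace
open scoped Pointwise Topology ComplexConjugate

namespace Pool.Agent.P.MP_41df0b_an

/-- `(z - q) * k z` has modulus `exp (-g (z, q))`, `g` the Green function. -/
structure IsGreen (U : Set ℂ) (q : ℂ) (k : ℂ → ℂ) : Prop where
  diff : DifferentiableOn ℂ k U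
  ne : ∀ z ∈ U, k z ≠ 0
  lt_one : ∀ z ∈ U, ‖(z - q) * k z‖ < 1
  cpt : ∀ r < 1, IsCompact {z | z ∈ U ∧ ‖(z - q) * k z‖ ≤ r}

lemma cpt_of_subset {U K : Set ℂ} (hK : IsCompact K) (hKU : K ⊆ U) {g : ℂ → ℝ}
    (hg : ContinuousOn g U) {r : ℝ} (h : ∀ z ∈ U, g z ≤ r → z ∈ K) :
    IsCompact {z | z ∈ U ∧ g z ≤ r} := by
  have : {z | z ∈ U ∧ g z ≤ r} = K ∩ g ⁻¹' Iic r := by
    ext z
    exact ⟨fun hz => ⟨h z hz.1 hz.2, hz.2⟩, fun hz => ⟨hKU hz.1, hz.2⟩⟩
  rw [this]
  exact hK.of_isClosed_subset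
    ((hg.mono hKU).preimage_isClosed_of_isClosed hK.isClosed isClosed_Iic) inter_subset_left

lemma mob_proper {a : ℂ} (ha : ‖a‖ < 1) {r : ℝ} (hr : r < 1) :
    ∃ r' < 1, ∀ w : ℂ, ‖w‖ < 1 → ‖mob a w‖ ≤ r → ‖w‖ ≤ r' := by
  by_cases hr0 : r < 0
  · exact ⟨0, one_pos, fun w _ h => absurd (h.trans_lt hr0) (not_lt.2 (norm_nonneg _))⟩
  push Not at hr0
  have h1 : 0 < 1 - r ^ 2 := by nlinarith
  have h2 : 0 < 1 - ‖a‖ := by linarith
  refine ⟨1 - (1 - r ^ 2) * (1 - ‖a‖) ^ 2 / 2, by have : 0 < (1 - r ^ 2) * (1 - ‖a‖) ^ 2 := by positivity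
                                                  linarith, fun w hw h => ?_⟩
  have hd := norm_pos_iff.2 (mob_den_ne ha hw.le)
  rw [mob, norm_div, div_le_iff₀ hd] at h
  have h3 := mob_normSq a w
  have h4 : 1 - ‖a‖ ≤ ‖1 - conj a * w‖ := by
    have := norm_sub_norm_le (1 : ℂ) (conj a * w)
    rw [norm_one, norm_mul, Complex.norm_conj] at this
    nlinarith [norm_nonneg a, norm_nonneg w]
  have h5 : ‖w - a‖ ^ 2 ≤ (r * ‖1 - conj a * w‖) ^ 2 := by gcongr
  have h6 : (1 - ‖a‖) ^ 2 ≤ ‖1 - conj a * w‖ ^ 2 := by gcongr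
  have h7 : (1 - r ^ 2) * (1 - ‖a‖) ^ 2 ≤ (1 - ‖a‖ ^ 2) * (1 - ‖w‖ ^ 2) := by nlinarith
  have h8 : (1 - ‖a‖ ^ 2) * (1 - ‖w‖ ^ 2) ≤ 1 - ‖w‖ ^ 2 := by
    have : 0 ≤ 1 - ‖w‖ ^ 2 := by nlinarith [norm_nonneg w]
    nlinarith [sq_nonneg ‖a‖]
  nlinarith [sq_nonneg (1 - ‖w‖)]

/-- The Green kernel of a Riemann map. -/
noncomputable def kern (f : ℂ → ℂ) (q z : ℂ) : ℂ := dslope f q z / (1 - conj (f q) * f z)

lemma mul_kern (f : ℂ → ℂ) (q z : ℂ) : (z - q) * kern f q z = mob (f q) (f z) := by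
  rw [kern, mob, ← mul_div_assoc, ← smul_eq_mul, sub_smul_dslope]

lemma IsRM.isGreen {U : Set ℂ} (hU : IsOpen U) {f : ℂ → ℂ} (hf : IsRM U f) {q : ℂ} (hq : q ∈ U) :
    IsGreen U q (kern f q) := by
  have hden : ∀ z ∈ U, 1 - conj (f q) * f z ≠ 0 := fun z hz =>
    mob_den_ne (hf.lt_one q hq) (hf.lt_one z hz).le
  have hd : DifferentiableOn ℂ (kern f q) U :=
    ((Complex.differentiableOn_dslope (hU.mem_nhds hq)).2 hf.diff).div
      ((hf.diff.const_mul _).const_sub _) hden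
  refine ⟨hd, fun z hz => div_ne_zero ?_ (hden z hz), fun z hz => ?_, fun r hr => ?_⟩
  · by_cases h : z = q
    · rw [h, dslope_same]; exact hf.dne q hq
    · rw [dslope_of_ne _ h, slope_def_field]
      exact div_ne_zero (sub_ne_zero.2 fun h' => h (hf.inj hz hq h')) (sub_ne_zero.2 h)
  · rw [mul_kern]; exact norm_mob_lt (hf.lt_one q hq) (hf.lt_one z hz)
  · obtain ⟨r', hr', h⟩ := mob_proper (hf.lt_one q hq) hr
    refine cpt_of_subset (g := fun z => ‖(z - q) * kern f q z‖) (hf.cpt r' hr') (fun z hz => hz.1)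
      (((continuousOn_id.sub continuousOn_const).mul hd.continuousOn).norm) fun z hz h' => ⟨hz, ?_⟩
    rw [mul_kern] at h'
    exact h _ (hf.lt_one z hz) h'

lemma norm_kern_symm (f : ℂ → ℂ) (q z : ℂ) : ‖kern f q z‖ = ‖kern f z q‖ := by
  by_cases h : z = q
  · rw [h]
  · rw [kern, kern, dslope_of_ne _ h, dslope_of_ne _ (Ne.symm h), slope_comm, norm_div, norm_div]
    congr 1
    rw [← Complex.norm_conj]
    simp [mul_comm]

/-- Maximum modulus principle off a compact set. -/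
lemma maxmod {U K : Set ℂ} (hU : IsOpen U) (hK : IsCompact K) (hKU : K ⊆ U) {Q : ℂ → ℂ}
    (hQ : DifferentiableOn ℂ Q U) {M : ℝ} (h : ∀ z ∈ U, z ∉ K → ‖Q z‖ ≤ M) :
    ∀ z ∈ U, ‖Q z‖ ≤ M := by
  intro z hz
  by_cases hzK : z ∈ K
  swap
  · exact h z hz hzK
  obtain ⟨V, hVo, hKV, hVU, hVc⟩ := exists_open_between_and_isCompact_closure hK hU hKU
  refine Complex.norm_le_of_forall_mem_frontier_norm_le (hVc.isBounded.subset subset_closure)
    (hQ.mono hVU).diffContOnCl (fun w hw => h w (hVU (frontier_subset_closure hw)) fun hwK => ?_)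
    (subset_closure (hKV hzK))
  rw [hVo.frontier_eq] at hw
  exact hw.2 (hKV hwK)

lemma mul_le_of_forall_lt {r₀ a b : ℝ} (h0 : 0 < r₀) (h : ∀ r, 0 < r → r < r₀ → r * a ≤ b) :
    r₀ * a ≤ b := by
  have h1 : Tendsto (fun r : ℝ => r * a) (𝓝[<] r₀) (𝓝 (r₀ * a)) :=
    ((continuous_id.mul continuous_const).tendsto r₀).mono_left nhdsWithin_le_nhds
  refine le_of_tendsto h1 ?_
  filter_upwards [Ioo_mem_nhdsLT h0] with r hr using h r hr.1 hr.2

/-- The comparison lemma. -/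
lemma IsGreen.cmp {U U' : Set ℂ} {q : ℂ} {k k' : ℂ → ℂ} (hk : IsGreen U q k) (hU : IsOpen U)
    (hU' : IsOpen U') (hd : DifferentiableOn ℂ k' U') (hl : ∀ z ∈ U', ‖(z - q) * k' z‖ ≤ 1)
    {r₀ : ℝ} (h0 : 0 < r₀) (h1 : r₀ ≤ 1) (hr : ∀ z ∈ U, z ∉ U' → r₀ ≤ ‖(z - q) * k z‖) :
    ∀ z ∈ U, z ∈ U' → r₀ * ‖k' z‖ ≤ ‖k z‖ := by
  intro z hz hz'
  refine mul_le_of_forall_lt h0 fun r hr0 hr1 => ?_
  have hK := hk.cpt r (hr1.trans_le h1)
  have hsub : {z | z ∈ U ∧ ‖(z - q) * k z‖ ≤ r} ⊆ U ∩ U' := by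
    intro w hw
    refine ⟨hw.1, ?_⟩
    by_contra h
    linarith [hr w hw.1 h, hw.2]
  have hQ : DifferentiableOn ℂ (fun z => k' z / k z) (U ∩ U') :=
    (hd.mono inter_subset_right).div (hk.diff.mono inter_subset_left) fun w hw => hk.ne w hw.1
  have := maxmod (hU.inter hU') hK hsub hQ (M := 1 / r) (fun w hw hwK => by
    have h2 : r < ‖(w - q) * k w‖ := by
      by_contra h
      exact hwK ⟨hw.1, not_lt.1 h⟩
    have h3 := hl w hw.2
    have h4 := norm_pos_iff.2 (hk.ne w hw.1)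
    rw [norm_mul] at h2 h3
    rw [norm_div, div_le_div_iff₀ h4 hr0]
    nlinarith [norm_nonneg (k' w), norm_nonneg (w - q)]) z ⟨hz, hz'⟩
  rw [norm_div, div_le_div_iff₀ (norm_pos_iff.2 (hk.ne z hz)) hr0] at this
  linarith

lemma IsGreen.le_of_subset {U U' : Set ℂ} {q : ℂ} {k k' : ℂ → ℂ} (hk : IsGreen U q k)
    (hU : IsOpen U) (hUU : U ⊆ U') (hd : DifferentiableOn ℂ k' U')
    (hl : ∀ z ∈ U', ‖(z - q) * k' z‖ ≤ 1) : ∀ z ∈ U, ‖k' z‖ ≤ ‖k z‖ := by
  intro z hz
  simpa using hk.cmp hU hU (hd.mono hUU) (fun w hw => hl w (hUU hw)) one_pos le_rfl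
    (fun w hw hw' => absurd hw hw') z hz hz

/-- Domains having a Riemann map. -/
def Good (U : Set ℂ) : Prop := IsOpen U ∧ ∃ f, IsRM U f

/-- A chosen Green kernel. -/
noncomputable def KK (U : Set ℂ) (q : ℂ) : ℂ → ℂ := Classical.epsilon (IsGreen U q)

/-- The regular part of the Green function. -/
noncomputable def HH (U : Set ℂ) (z q : ℂ) : ℝ := -Real.log ‖KK U q z‖

lemma Good.green {U : Set ℂ} (hU : Good U) {q : ℂ} (hq : q ∈ U) : IsGreen U q (KK U q) := by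
  obtain ⟨f, hf⟩ := hU.2
  exact Classical.epsilon_spec ⟨_, hf.isGreen hU.1 hq⟩

lemma IsGreen.norm_eq {U : Set ℂ} (hU : IsOpen U) {q : ℂ} {k k' : ℂ → ℂ} (hk : IsGreen U q k)
    (hk' : IsGreen U q k') {z : ℂ} (hz : z ∈ U) : ‖k z‖ = ‖k' z‖ :=
  le_antisymm (hk'.le_of_subset hU subset_rfl hk.diff (fun w hw => (hk.lt_one w hw).le) z hz)
    (hk.le_of_subset hU subset_rfl hk'.diff (fun w hw => (hk'.lt_one w hw).le) z hz)

lemma IsGreen.HH_eq {U : Set ℂ} (hU : IsOpen U) {q : ℂ} {k : ℂ → ℂ} (hk : IsGreen U q k)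
    {z : ℂ} (hz : z ∈ U) : HH U z q = -Real.log ‖k z‖ := by
  have : IsGreen U q (KK U q) := Classical.epsilon_spec ⟨_, hk⟩
  rw [HH, this.norm_eq hU hk hz]

lemma Good.symm {U : Set ℂ} (hU : Good U) {z q : ℂ} (hz : z ∈ U) (hq : q ∈ U) :
    HH U z q = HH U q z := by
  obtain ⟨f, hf⟩ := hU.2
  rw [(hf.isGreen hU.1 hq).HH_eq hU.1 hz, (hf.isGreen hU.1 hz).HH_eq hU.1 hq, norm_kern_symm]

lemma Good.harmonic {U : Set ℂ} (hU : Good U) {q : ℂ} (hq : q ∈ U) :
    HarmonicOnNhd (fun z => HH U z q) U := by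
  intro z hz
  have hk := hU.green hq
  exact ((hk.diff.analyticAt (hU.1.mem_nhds hz)).harmonicAt_log_norm (hk.ne z hz)).neg

lemma Good.harmonic' {U : Set ℂ} (hU : Good U) {z : ℂ} (hz : z ∈ U) :
    HarmonicOnNhd (fun q => HH U z q) U := by
  intro q hq
  refine (harmonicAt_congr_nhds ?_).1 (hU.harmonic hz q hq)
  filter_upwards [hU.1.mem_nhds hq] with w hw using hU.symm hw hz

/-- Comparison of Green functions of two domains. -/
lemma Good.cmp {U U' : Set ℂ} (hU : Good U) (hU' : Good U') {z q : ℂ} (hz : z ∈ U) (hz' : z ∈ U')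
    (hq : q ∈ U) (hq' : q ∈ U') {c : ℝ} (hc : 0 ≤ c)
    (hr : ∀ w ∈ U, w ∉ U' → Real.exp (-c) ≤ ‖(w - q) * KK U q w‖) :
    HH U z q ≤ HH U' z q + c := by
  have hk := hU.green hq
  have hk' := hU'.green hq'
  have := hk.cmp hU.1 hU'.1 hk'.diff (fun w hw => (hk'.lt_one w hw).le) (Real.exp_pos (-c))
    (Real.exp_le_one_iff.2 (by linarith)) hr z hz hz'
  have h1 := norm_pos_iff.2 (hk'.ne z hz')
  have h2 := Real.log_le_log (by positivity) this
  rw [Real.log_mul (Real.exp_pos _).ne' h1.ne', Real.log_exp] at h2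
  simp only [HH]
  linarith

lemma Good.mono {U U' : Set ℂ} (hU : Good U) (hU' : Good U') (h : U ⊆ U') {z q : ℂ} (hz : z ∈ U)
    (hq : q ∈ U) : HH U z q ≤ HH U' z q := by
  simpa using hU.cmp hU' hz (h hz) hq (h hq) le_rfl fun w hw hw' => absurd (h hw) hw'

/-- Supermodularity of Green functions. -/
lemma supermod {A B Big Small : Set ℂ} (hA : Good A) (hB : Good B) (hBig : Good Big)
    (hS : Good Small) (h1 : A ⊆ Big) (h2 : B ⊆ Big) (h3 : A ∩ B ⊆ Small) {z q : ℂ}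
    (hz : z ∈ A ∩ B) (hq : q ∈ A ∩ B) :
    HH A z q + HH B z q ≤ HH Big z q + HH Small z q := by
  have kA := hA.green hq.1
  have kB := hB.green hq.2
  have kG := hBig.green (h1 hq.1)
  have kS := hS.green (h3 hq)
  have hGA := kA.le_of_subset hA.1 h1 kG.diff fun w hw => (kG.lt_one w hw).le
  have hGB := kB.le_of_subset hB.1 h2 kG.diff fun w hw => (kG.lt_one w hw).le
  have key : 1 * ‖KK Big q z * KK Small q z‖ ≤ ‖KK A q z * KK B q z‖ := by
    refine mul_le_of_forall_lt one_pos fun r hr0 hr1 => ?_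
    have hK := (kA.cpt r hr1).inter (kB.cpt r hr1)
    have hQ : DifferentiableOn ℂ (fun z => (KK Big q z * KK Small q z) / (KK A q z * KK B q z))
        (A ∩ B) :=
      ((kG.diff.mono (inter_subset_left.trans h1)).mul (kS.diff.mono h3)).div
        ((kA.diff.mono inter_subset_left).mul (kB.diff.mono inter_subset_right))
        fun w hw => mul_ne_zero (kA.ne w hw.1) (kB.ne w hw.2)
    have := maxmod (hA.1.inter hB.1) hK (fun w hw => ⟨hw.1.1, hw.2.1⟩) hQ (M := 1 / r)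
      (fun w hw hwK => by
        have a0 := norm_pos_iff.2 (kA.ne w hw.1)
        have b0 := norm_pos_iff.2 (kB.ne w hw.2)
        have s1 := kS.lt_one w (h3 hw)
        have g1 := hGA w hw.1
        have g2 := hGB w hw.2
        rw [norm_div, norm_mul, norm_mul, div_le_div_iff₀ (by positivity) hr0]
        rw [norm_mul] at s1
        have s0 := norm_nonneg (KK Small q w)
        have g0 := norm_nonneg (KK Big q w)
        have d0 := norm_nonneg (w - q)
        by_cases ha : ‖(w - q) * KK A q w‖ ≤ r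
        · have hb : r < ‖(w - q) * KK B q w‖ := by
            by_contra h
            exact hwK ⟨⟨hw.1, ha⟩, ⟨hw.2, not_lt.1 h⟩⟩
          rw [norm_mul] at hb
          have : ‖KK Small q w‖ * r ≤ ‖KK B q w‖ := by nlinarith
          calc ‖KK Big q w‖ * ‖KK Small q w‖ * r = ‖KK Big q w‖ * (‖KK Small q w‖ * r) := by ring
            _ ≤ ‖KK A q w‖ * ‖KK B q w‖ := by gcongr
            _ = _ := by ring
        · push Not at ha
          rw [norm_mul] at ha
          have : ‖KK Small q w‖ * r ≤ ‖KK A q w‖ := by nlinarith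
          calc ‖KK Big q w‖ * ‖KK Small q w‖ * r = ‖KK Big q w‖ * (‖KK Small q w‖ * r) := by ring
            _ ≤ ‖KK B q w‖ * ‖KK A q w‖ := by gcongr
            _ = _ := by ring) z hz
    rw [norm_div, div_le_div_iff₀
      (norm_pos_iff.2 (mul_ne_zero (kA.ne z hz.1) (kB.ne z hz.2))) hr0] at this
    linarith
  have a0 := norm_pos_iff.2 (kA.ne z hz.1)
  have b0 := norm_pos_iff.2 (kB.ne z hz.2)
  have s0 := norm_pos_iff.2 (kS.ne z (h3 hz))
  have g0 := norm_pos_iff.2 (kG.ne z (h1 hz.1))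
  rw [one_mul, norm_mul, norm_mul] at key
  have := Real.log_le_log (by positivity) key
  rw [Real.log_mul g0.ne' s0.ne', Real.log_mul a0.ne' b0.ne'] at this
  simp only [HH]
  linarith

lemma IsGreen.shift {U : Set ℂ} {q c : ℂ} {k : ℂ → ℂ} (hk : IsGreen U (q + c) k) :
    IsGreen ((fun z => z + c) ⁻¹' U) q (fun z => k (z + c)) := by
  have e : ∀ z : ℂ, z + c - (q + c) = z - q := fun z => by ring
  refine ⟨hk.diff.comp (differentiableOn_id.add_const c) (fun z hz => hz),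
    fun z hz => hk.ne _ hz, fun z hz => by simpa only [e] using hk.lt_one _ hz, fun r hr => ?_⟩
  have := (Homeomorph.addRight c).isCompact_preimage.2 (hk.cpt r hr)
  convert this using 1
  ext z
  simp [e]

lemma HH_shift {U V : Set ℂ} (hU : Good U) {c : ℂ} (hV : V = (fun z => z + c) ⁻¹' U) {z q : ℂ}
    (hz : z + c ∈ U) (hq : q + c ∈ U) : HH V z q = HH U (z + c) (q + c) := by
  subst hV
  exact (hU.green hq).shift.HH_eq (hU.1.preimage (continuous_id.add continuous_const)) hz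

lemma sqrt_sq' (w : ℂ) : Complex.sqrt w ^ 2 = w := by
  rw [Complex.sqrt]
  exact Complex.cpow_ofNat_inv_pow w 2

lemma sqrt_re_pos {w : ℂ} (hw : w ∈ slitPlane) : 0 < (Complex.sqrt w).re := by
  rw [Complex.sqrt, Complex.cpow_inv_two_re]
  apply Real.sqrt_pos.2
  have h1 := Complex.abs_re_le_norm w
  rcases hw with h | h
  · linarith [norm_nonneg w]
  · have := Complex.abs_re_lt_norm.2 h
    have := neg_abs_le w.re
    linarith

lemma norm_sqrt' (w : ℂ) : ‖Complex.sqrt w‖ = √‖w‖ := by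
  rw [← Real.sqrt_sq (norm_nonneg (Complex.sqrt w)), ← norm_pow, sqrt_sq']

/-- Comparison with the complement of a ray. -/
lemma ray_bound {U : Set ℂ} (hU : Good U) {q : ℂ} (hq : q ∈ U) {ζ u : ℂ} (hu : ‖u‖ = 1)
    (hs : ∀ z ∈ U, u * (z - ζ) ∈ slitPlane) {z : ℂ} (hz : z ∈ U) :
    HH U z q ≤ 2 * Real.log (√‖z - ζ‖ + √‖q - ζ‖) ∧
    (√‖q - ζ‖ - √‖z - ζ‖) / (√‖q - ζ‖ + √‖z - ζ‖) ≤ ‖(z - q) * KK U q z‖ := by
  set ψ : ℂ → ℂ := fun z => Complex.sqrt (u * (z - ζ)) with hψ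
  have hre : ∀ w ∈ U, 0 < (ψ w).re := fun w hw => sqrt_re_pos (hs w hw)
  have hsq : ∀ w, ψ w ^ 2 = u * (w - ζ) := fun w => sqrt_sq' _
  have hn : ∀ w, ‖ψ w‖ = √‖w - ζ‖ := fun w => by rw [hψ, norm_sqrt', norm_mul, hu, one_mul]
  have hd : DifferentiableOn ℂ ψ U := fun w hw =>
    ((Complex.differentiableAt_sqrt (hs w hw)).comp w
      ((differentiableAt_id.sub_const ζ).const_mul u)).differentiableWithinAt
  have n1 : ∀ w ∈ U, ψ w + ψ q ≠ 0 := fun w hw h => by
    have := congrArg Complex.re h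
    simp at this
    linarith [hre w hw, hre q hq]
  have n2 : ∀ w ∈ U, ψ w + conj (ψ q) ≠ 0 := fun w hw h => by
    have := congrArg Complex.re h
    simp at this
    linarith [hre w hw, hre q hq]
  set k' : ℂ → ℂ := fun w => u / ((ψ w + ψ q) * (ψ w + conj (ψ q))) with hk'
  have hk'd : DifferentiableOn ℂ k' U :=
    (differentiableOn_const u).div ((hd.add_const _).mul (hd.add_const _))
      fun w hw => mul_ne_zero (n1 w hw) (n2 w hw)
  have hmul : ∀ w ∈ U, (w - q) * k' w = (ψ w - ψ q) / (ψ w + conj (ψ q)) := by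
    intro w hw
    have a1 := n1 w hw
    have a2 := n2 w hw
    simp only [hk']
    field_simp
    linear_combination hsq q - hsq w
  have hl : ∀ w ∈ U, ‖(w - q) * k' w‖ ≤ 1 := by
    intro w hw
    rw [hmul w hw, norm_div, div_le_one (norm_pos_iff.2 (n2 w hw))]
    refine le_of_sq_le_sq ?_ (norm_nonneg _)
    simp only [Complex.sq_norm, normSq_apply, sub_re, sub_im, add_re, add_im, conj_re, conj_im]
    nlinarith [mul_pos (hre w hw) (hre q hq)]
  have hle := (hU.green hq).le_of_subset hU.1 subset_rfl hk'd hl z hz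
  have p1 := norm_pos_iff.2 (n1 z hz)
  have p2 := norm_pos_iff.2 (n2 z hz)
  have b1 : ‖ψ z + ψ q‖ ≤ √‖z - ζ‖ + √‖q - ζ‖ := by rw [← hn, ← hn]; exact norm_add_le _ _
  have b2 : ‖ψ z + conj (ψ q)‖ ≤ √‖z - ζ‖ + √‖q - ζ‖ := by
    rw [← hn, ← hn, ← Complex.norm_conj (ψ q)]; exact norm_add_le _ _
  constructor
  · have e : ‖k' z‖ = (‖ψ z + ψ q‖ * ‖ψ z + conj (ψ q)‖)⁻¹ := by
      simp only [hk', norm_div, norm_mul, hu, one_div]
    have h1 := Real.log_le_log (by rw [e]; positivity) hle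
    rw [e, Real.log_inv, Real.log_mul p1.ne' p2.ne'] at h1
    have h2 := Real.log_le_log p1 b1
    have h3 := Real.log_le_log p2 b2
    simp only [HH]
    linarith
  · calc (√‖q - ζ‖ - √‖z - ζ‖) / (√‖q - ζ‖ + √‖z - ζ‖)
        ≤ ‖ψ z - ψ q‖ / (√‖q - ζ‖ + √‖z - ζ‖) := by
          gcongr
          rw [← hn, ← hn, norm_sub_rev]; exact norm_sub_norm_le _ _
      _ ≤ ‖ψ z - ψ q‖ / ‖ψ z + conj (ψ q)‖ := by
          gcongr
          linarith
      _ = ‖(z - q) * k' z‖ := by rw [hmul z hz, norm_div]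
      _ ≤ _ := by rw [norm_mul, norm_mul]; gcongr

/-- Lower bound from a disc in the domain. -/
lemma disc_bound {U : Set ℂ} (hU : Good U) {q : ℂ} {R : ℝ} (hR : 0 < R)
    (hb : closedBall q R ⊆ U) {z : ℂ} (hz : z ∈ closedBall q R) : Real.log R ≤ HH U z q := by
  have hk := hU.green (hb (mem_closedBall_self hR.le))
  have h1 : ‖KK U q z‖ ≤ R⁻¹ := by
    refine Complex.norm_le_of_forall_mem_frontier_norm_le isBounded_ball
      (DifferentiableOn.diffContOnCl_ball hk.diff hb) (fun w hw => ?_)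
      (by rwa [closure_ball q hR.ne'])
    rw [frontier_ball q hR.ne'] at hw
    have h2 := hk.lt_one w (hb (sphere_subset_closedBall hw))
    rw [norm_mul, ← dist_eq_norm, mem_sphere.1 hw] at h2
    rw [inv_eq_one_div, le_div_iff₀ hR]
    linarith
  have := Real.log_le_log (norm_pos_iff.2 (hk.ne z (hb hz))) h1
  rw [Real.log_inv] at this
  simp only [HH]
  linarith

/-- Harnack's inequality. -/
lemma harnack {w : ℂ → ℝ} {c : ℂ} (hw : HarmonicOnNhd w (closedBall c (1 / 2)))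
    (h0 : ∀ z ∈ closedBall c (1 / 2), 0 ≤ w z) {z : ℂ} (hz : ‖z - c‖ ≤ 1 / 4) :
    |w z - w c| ≤ 8 * ‖z - c‖ * w c := by
  have hzb : z ∈ ball c (1 / 2) := by rw [mem_ball_iff_norm]; linarith
  have habs : |(1 / 2 : ℝ)| = 1 / 2 := abs_of_pos (by norm_num)
  have e1 := hw.circleAverage_re_herglotzRieszKernel_smul hzb
  have e2 : Real.circleAverage w c (1 / 2) = w c :=
    InnerProductSpace.HarmonicOnNhd.circleAverage_eq (by rwa [habs])
  have hwc : ContinuousOn w (sphere c |1 / 2|) := by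
    rw [habs]; exact hw.continuousOn.mono sphere_subset_closedBall
  have i1 : CircleIntegrable ((re ∘ herglotzRieszKernel c z) • w) c (1 / 2) :=
    ((Complex.continuous_re.comp_continuousOn
      (continuousOn_herglotzRieszKernel_sphere hzb)).smul hwc).circleIntegrable'
  have i2 : ∀ a : ℝ, CircleIntegrable (a • w) c (1 / 2) := fun a =>
    (hwc.const_smul a).circleIntegrable'
  set d := ‖z - c‖ with hd
  have d0 : 0 ≤ d := norm_nonneg _
  have u1 : w z ≤ (1 + 8 * d) * w c := by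
    rw [← e1, ← e2, ← smul_eq_mul, ← Real.circleAverage_smul]
    refine Real.circleAverage_mono i1 (i2 _) fun x hx => ?_
    rw [habs] at hx
    have k1 := re_herglotzRieszKernel_le hx hzb
    have k2 : (1 / 2 + d) / (1 / 2 - d) ≤ 1 + 8 * d := by
      rw [div_le_iff₀ (by linarith)]; nlinarith
    exact mul_le_mul_of_nonneg_right (k1.trans k2) (h0 x (sphere_subset_closedBall hx))
  have u2 : (1 - 8 * d) * w c ≤ w z := by
    rw [← e1, ← e2, ← smul_eq_mul, ← Real.circleAverage_smul]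
    refine Real.circleAverage_mono (i2 _) i1 fun x hx => ?_
    rw [habs] at hx
    have k1 := le_re_herglotzRieszKernel hx hzb
    have k2 : 1 - 8 * d ≤ (1 / 2 - d) / (1 / 2 + d) := by
      rw [le_div_iff₀ (by linarith)]; nlinarith
    exact mul_le_mul_of_nonneg_right (k2.trans k1) (h0 x (sphere_subset_closedBall hx))
  rw [abs_le]
  constructor <;> linarith

end Pool.Agent.P.MP_41df0b_an
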