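import Pool.Agent.P.MP_41df0b_an.Perron

/-!
The Perron solution for a profile domain in terms of the Green function of the doubled domain.
-/

set_option autoImplicit false

open Function Filter Metric Set Complex InnerProductSpace MeasureTheory
open scoped Topology ComplexConjugate Real

namespace Pool.Agent.P.MP_41df0b_an

/-- The left half of the doubled domain. -/
def CC (h : ℝ → ℝ) (t : ℝ) : Set ℂ := {z | z ∈ Om h t ∧ z.re < t}

/-- The values at the origin of the members of the Perron family. -/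
def PerronSet (C : Set ℂ) (t : ℝ) : Set ℝ := {x : ℝ | ∃ u : ℂ → ℝ,
  LowerSemicontinuousOn u C ∧
  (∀ z ∈ C, 0 ≤ u z ∧ u z ≤ 1) ∧
  (∀ a : ℂ, ∀ r : ℝ, 0 < r → Metric.closedBall a r ⊆ C →
      (∫ θ in (0 : ℝ)..(2 * Real.pi), u (circleMap a r θ)) ≤ 2 * Real.pi * u a) ∧
  (∀ ζ ∈ frontier C ∩ {z : ℂ | z.re = t}, ∀ ε : ℝ, 0 < ε →
      ∀ᶠ z in nhdsWithin ζ C, 1 - ε < u z) ∧
  u 0 = x}

lemma isOpen_CC (h : ℝ → ℝ) (t : ℝ) : IsOpen (CC h t) :=
  (isOpen_Om h t).inter (isOpen_lt Complex.continuous_re continuous_const)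

lemma CC_segment {h : ℝ → ℝ} {t : ℝ} {z : ℂ} (hz : z ∈ CC h t) :
    segment ℝ z (conj z) ⊆ CC h t := by
  rintro _ ⟨a, b, ha, hb, hab, rfl⟩
  have e1 : (a • z + b • conj z).re = z.re := by
    simp; linear_combination z.re * hab
  refine ⟨Om_vertical hz.1 e1 ?_, e1 ▸ hz.2⟩
  have e2 : (a • z + b • conj z).im = (a - b) * z.im := by simp; ring
  rw [e2, abs_mul]
  have : |a - b| ≤ 1 := by rw [abs_le]; constructor <;> linarith
  nlinarith [abs_nonneg z.im]

lemma Prof.zero_mem_CC {h : ℝ → ℝ} (hh : Prof h) {t : ℝ} (ht : 0 < t) : (0 : ℂ) ∈ CC h t :=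
  ⟨hh.mem t (by simp), by simpa using ht⟩

lemma Prof.preconnected_CC {h : ℝ → ℝ} (hh : Prof h) {t : ℝ} (ht : 0 < t) :
    IsPreconnected (CC h t) := by
  refine isPreconnected_of_forall (0 : ℂ) fun y hy => ?_
  have m1 : (y.re : ℂ) ∈ segment ℝ y (conj y) :=
    ⟨1 / 2, 1 / 2, by norm_num, by norm_num, by norm_num, by
      apply Complex.ext <;> simp; ring⟩
  refine ⟨segment ℝ y (conj y) ∪ segment ℝ (y.re : ℂ) 0, union_subset (CC_segment hy) ?_,
    Or.inr (right_mem_segment _ _ _), Or.inl (left_mem_segment _ _ _),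
    IsPreconnected.union (y.re : ℂ) m1 (left_mem_segment _ _ _)
      (convex_segment _ _).isPreconnected (convex_segment _ _).isPreconnected⟩
  rintro _ ⟨a, b, ha, hb, hab, rfl⟩
  refine ⟨hh.mem t (by simp), ?_⟩
  have := hy.2
  simp only [smul_zero, add_zero, real_smul, mul_re, ofReal_re, ofReal_im, mul_zero, sub_zero]
  by_cases h0 : 0 ≤ y.re
  · nlinarith
  · nlinarith

lemma Om_reflect {h : ℝ → ℝ} {t : ℝ} : ∀ z ∈ Om h t, ((2 * t : ℝ) : ℂ) - z ∈ Om h t := by
  rintro z ⟨s, hs, hs'⟩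
  refine ⟨s, ?_, by simpa using hs'⟩
  simp only [sub_re, ofReal_re]
  rcases hs with hs | hs
  · right; linarith
  · left; linarith

lemma Om_conj {h : ℝ → ℝ} {t : ℝ} : ∀ z ∈ Om h t, conj z ∈ Om h t := fun _ hz =>
  Om_vertical hz (by simp) (by simp)

lemma exists_sym {h : ℝ → ℝ} (hh : Prof h) {t : ℝ} (ht : 0 < t) :
    ∃ f, IsRM (Om h t) f ∧ (∀ z ∈ Om h t, f (((2 * t : ℝ) : ℂ) - z) = -f z) ∧
      (∀ z ∈ Om h t, f (conj z) = conj (f z)) ∧ ∀ z ∈ CC h t, 0 < (f z).re := by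
  have hU := isOpen_Om h t
  have hc := (hh.simplyConnected t).isPathConnected.isConnected.isPreconnected
  have hq : (t : ℂ) ∈ Om h t := hh.mem t (by simp)
  obtain ⟨f₀, hf₀, h0, -⟩ := riemann_mapping hU (hh.simplyConnected t) (hh.ne_univ t) hq
  have d0 := hf₀.dne _ hq
  have n0 : ((‖deriv f₀ t‖ : ℝ) : ℂ) ≠ 0 := by simpa using d0
  set c : ℂ := conj (deriv f₀ t) / ‖deriv f₀ t‖ with hcdef
  have hcn : ‖c‖ = 1 := by
    rw [hcdef, norm_div, Complex.norm_conj, Complex.norm_real, norm_norm,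
      div_self (norm_ne_zero_iff.2 d0)]
  set f : ℂ → ℂ := fun z => c * f₀ z with hfdef
  have hf : IsRM (Om h t) f := hf₀.const_mul hU hcn
  have f0 : f t = 0 := by simp [hfdef, h0]
  have fd : deriv f t = ‖deriv f₀ t‖ := by
    rw [hfdef, deriv_const_mul _ (hf₀.diff.differentiableAt (hU.mem_nhds hq)), hcdef,
      div_mul_eq_mul_div, Complex.conj_mul', div_eq_iff n0]
    ring
  have e2 : ((2 * t : ℝ) : ℂ) - t = t := by push_cast; ring
  have S1 : ∀ z ∈ Om h t, f (((2 * t : ℝ) : ℂ) - z) = -f z := by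
    have r1 := (hf.reflect Om_reflect).const_mul hU (c := -1) (by simp)
    have := hf.unique hU hc r1 hq f0 (by simp only [e2, f0, mul_zero]) (by
      rw [deriv_const_mul _ ((hf.reflect Om_reflect).diff.differentiableAt (hU.mem_nhds hq)),
        deriv_comp_const_sub, e2]; ring)
    intro z hz
    rw [this hz]; ring
  have S2 : ∀ z ∈ Om h t, f (conj z) = conj (f z) := by
    have := hf.unique hU hc (hf.conj hU Om_conj) hq f0 (by simp [f0]) (by
      rw [deriv_conj_conj]; simp [fd])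
    intro z hz
    rw [this hz]; simp
  have hne : ∀ z ∈ CC h t, (f z).re ≠ 0 := by
    intro z hz h0
    have a1 : f (((2 * t : ℝ) : ℂ) - conj z) = f z := by
      rw [S1 _ (Om_conj z hz.1), S2 z hz.1]
      apply Complex.ext <;> simp [h0]
    have a2 := congrArg Complex.re (hf.inj (Om_reflect _ (Om_conj z hz.1)) hz.1 a1)
    simp at a2
    linarith [hz.2]
  have hcont : ContinuousOn (fun z => (f z).re) (CC h t) :=
    Complex.continuous_re.comp_continuousOn (hf.diff.continuousOn.mono fun z hz => hz.1)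
  rcases lt_or_gt_of_ne (hne 0 (hh.zero_mem_CC ht)) with h1 | h1
  · refine ⟨fun z => -1 * f z, hf.const_mul hU (by simp), fun z hz => by simp only [S1 z hz]; ring,
      fun z hz => by simp [S2 z hz], fun z hz => ?_⟩
    have := (hh.preconnected_CC ht).gt_of_ne hcont hne ⟨0, hh.zero_mem_CC ht, h1⟩ hz
    simpa using this
  · exact ⟨f, hf, S1, S2, fun z hz =>
      (hh.preconnected_CC ht).lt_of_ne hcont hne ⟨0, hh.zero_mem_CC ht, h1⟩ hz⟩

lemma mem_closure_CC {h : ℝ → ℝ} (hh : Prof h) {t : ℝ} {z : ℂ} (hz : z ∈ closure (CC h t))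
    (hre : z.re = t) {s : ℝ} (hs : s < t) : |z.im| ≤ h s := by
  have h1 : ∀ᶠ y in 𝓝 z, s < y.re :=
    Complex.continuous_re.continuousAt.eventually (lt_mem_nhds (hre ▸ hs))
  have h2 : ∃ᶠ y in 𝓝 z, |y.im| ≤ h s := by
    refine ((mem_closure_iff_frequently.1 hz).and_eventually h1).mono ?_
    rintro y ⟨⟨⟨σ, a, b⟩, c⟩, d⟩
    refine b.le.trans (hh.anti (le_min ?_ hs.le))
    rcases a with a | a <;> linarith
  have h3 : IsClosed {y : ℂ | |y.im| ≤ h s} := isClosed_le (by fun_prop) continuous_const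
  exact h3.closure_subset (mem_closure_iff_frequently.2 h2)

lemma perron_lower {h : ℝ → ℝ} (hh : Prof h) {t : ℝ} (ht : 0 < t) {f : ℂ → ℂ}
    (hf : IsRM (Om h t) f) (hpos : ∀ z ∈ CC h t, 0 < (f z).re) :
    ∀ x ∈ PerronSet (CC h t) t, VV (f 0) ≤ x := by
  rintro _ ⟨u, u1, u2, u3, u4, rfl⟩
  have hU := isOpen_Om h t
  have hCU : CC h t ⊆ Om h t := fun z hz => hz.1
  have hv := (harmonic_VV hU hf.diff hf.lt_one).mono hCU
  have hb := (harmonic_bar hU hf.diff hf.lt_one).mono hCU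
  set bar : ℂ → ℝ := fun z => -Real.log ‖(1 + f z ^ 2) / 2‖ with hbar
  have key : ∀ ε, 0 < ε → -ε < u 0 + (ε * bar 0 - VV (f 0)) := by
    intro ε hε
    have hg : HarmonicOnNhd (fun z => ε * bar z - VV (f z)) (CC h t) :=
      (hb.const_smul (c := ε)).sub hv
    obtain ⟨r, hr, hprop⟩ := VV_proper hε
    have hK : IsCompact ({z | z ∈ Om h t ∧ ‖f z‖ ≤ r} ∩ closure (CC h t)) :=
      (hf.cpt r hr).inter_right isClosed_closure
    refine min_principle (isOpen_CC h t) (w := fun z => u z + (ε * bar z - VV (f z)))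
      (u1.add hg.continuousOn.lowerSemicontinuousOn) (fun a ρ hρ hball => ?_) hK
      (fun z hz hle => ⟨⟨hz.1, ?_⟩, subset_closure hz⟩) (fun z hz hzC => ?_) 0
      (hh.zero_mem_CC ht)
    · have i1 := lsc_integrable u1 u2 hρ hball
      obtain ⟨i2, e2⟩ := harm_integral hg hρ hball
      refine ⟨i1.add i2, ?_⟩
      rw [intervalIntegral.integral_add i1 i2, e2]
      linarith [u3 a ρ hρ hball]
    · have b0 : 0 ≤ bar z := bar_nonneg (hf.lt_one z hz.1)
      have b1 := VV_bounds (hf.lt_one z hz.1) (hpos z hz).le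
      have b2 := (u2 z hz).1
      refine hprop _ (hf.lt_one z hz.1) (hpos z hz).le (by nlinarith) ?_
      change bar z ≤ 1 / ε
      rw [le_div_iff₀ hε]
      linarith [b1.2]
    · have hre : z.re = t := by
        have a1 : z.re ≤ t :=
          (isClosed_le Complex.continuous_re continuous_const).closure_subset_iff.2
            (fun y (hy : y ∈ CC h t) => hy.2.le) hz.2
        by_contra hne
        exact hzC ⟨hz.1.1, lt_of_le_of_ne a1 hne⟩
      have hfr : z ∈ frontier (CC h t) := by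
        rw [(isOpen_CC h t).frontier_eq]; exact ⟨hz.2, hzC⟩
      filter_upwards [u4 z ⟨hfr, hre⟩ ε hε, self_mem_nhdsWithin] with y hy hyC
      have b0 : 0 ≤ bar y := bar_nonneg (hf.lt_one y hyC.1)
      have b1 := VV_bounds (hf.lt_one y hyC.1) (hpos y hyC).le
      nlinarith [b1.2]
  have b0 : 0 ≤ bar 0 := bar_nonneg (hf.lt_one 0 (hh.zero_mem_CC ht).1)
  refine le_of_forall_pos_le_add fun δ hδ => ?_
  have := key (δ / (1 + bar 0)) (by positivity)
  have e : δ / (1 + bar 0) * (1 + bar 0) = δ := by field_simp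
  nlinarith

lemma perron_upper {h : ℝ → ℝ} (hh : Prof h) {t : ℝ} (ht : 0 < t)
    (hlc : ∀ y, (∀ s < t, y ≤ h s) → y ≤ h t) {f : ℂ → ℂ}
    (hf : IsRM (Om h t) f) (hpos : ∀ z ∈ CC h t, 0 < (f z).re)
    (hzero : ∀ z ∈ Om h t, z.re = t → (f z).re = 0) {δ : ℝ} (hδ : 0 < δ) :
    ∃ x ∈ PerronSet (CC h t) t, x ≤ VV (f 0) + δ := by
  have hU := isOpen_Om h t
  have hCU : CC h t ⊆ Om h t := fun z hz => hz.1
  have hv0 := harmonic_VV hU hf.diff hf.lt_one
  have hv := hv0.mono hCU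
  set ζ₁ : ℂ := t + h t * I with hζ₁
  set ζ₂ : ℂ := t - h t * I with hζ₂
  have r1 : ζ₁.re = t := by simp [hζ₁]
  have r2 : ζ₂.re = t := by simp [hζ₂]
  have p1 : ∀ z ∈ CC h t, 0 ≤ bar2 ζ₁ z := fun z hz => bar2_nonneg (r1 ▸ hz.2)
  have p2 : ∀ z ∈ CC h t, 0 ≤ bar2 ζ₂ z := fun z hz => bar2_nonneg (r2 ▸ hz.2)
  have pv : ∀ z ∈ CC h t, 0 ≤ VV (f z) := fun z hz =>
    (VV_bounds (hf.lt_one z hz.1) (hpos z hz).le).1
  have h0 := hh.zero_mem_CC ht
  set B := bar2 ζ₁ 0 + bar2 ζ₂ 0 with hB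
  have B0 : 0 ≤ B := add_nonneg (p1 0 h0) (p2 0 h0)
  set ε := δ / (1 + B) with hε
  have ε0 : 0 < ε := by positivity
  set g : ℂ → ℝ := fun z => VV (f z) + ε * (bar2 ζ₁ z + bar2 ζ₂ z) with hg
  have hgh : HarmonicOnNhd g (CC h t) := fun z hz =>
    (hv z hz).add (((bar2_harmonic (r1 ▸ hz.2)).add (bar2_harmonic (r2 ▸ hz.2))).const_smul
      (c := ε))
  have hgv : ∀ z ∈ CC h t, VV (f z) ≤ g z := fun z hz => by
    have := mul_nonneg ε0.le (add_nonneg (p1 z hz) (p2 z hz))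
    simp only [hg]; linarith
  have hcont : ContinuousOn (fun z => min 1 (g z)) (CC h t) :=
    continuous_min.comp_continuousOn (continuousOn_const.prodMk hgh.continuousOn)
  refine ⟨min 1 (g 0), ⟨fun z => min 1 (g z), hcont.lowerSemicontinuousOn,
    fun z hz => ⟨le_min zero_le_one ((pv z hz).trans (hgv z hz)), min_le_left _ _⟩,
    fun a r hr hball => ?_, fun ζ hζ η hη => ?_, rfl⟩, ?_⟩
  · obtain ⟨i2, e2⟩ := harm_integral hgh hr hball
    have i1 : IntervalIntegrable (fun θ => min 1 (g (circleMap a r θ))) volume 0 (2 * π) :=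
      (hcont.comp_continuous (continuous_circleMap a r)
        (circleMap_mem hr hball)).intervalIntegrable _ _
    rw [mul_min_of_nonneg _ _ Real.two_pi_pos.le]
    refine le_min ?_ ?_
    · have := intervalIntegral.integral_mono_on Real.two_pi_pos.le i1
        (intervalIntegrable_const (c := (1 : ℝ))) fun θ _ => min_le_left _ _
      simpa using this
    · rw [← e2]
      exact intervalIntegral.integral_mono_on Real.two_pi_pos.le i1 i2 fun θ _ => min_le_right _ _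
  · have hre : ζ.re = t := hζ.2
    have him : |ζ.im| ≤ h t :=
      hlc _ fun s hs => mem_closure_CC hh (frontier_subset_closure hζ.1) hre hs
    have near : ∀ ξ : ℂ, ξ.re = t → ∀ᶠ z in 𝓝[CC h t] ξ, z ∈ CC h t ∧ 1 ≤ ε * bar2 ξ z := by
      intro ξ hξ
      filter_upwards [mem_nhdsWithin_of_mem_nhds (ball_mem_nhds ξ (Real.exp_pos (-(1 / ε)))),
        self_mem_nhdsWithin] with z hz hzC
      have := bar2_large (hξ ▸ hzC.2) (mem_ball_iff_norm.1 hz)
      rw [div_le_iff₀ ε0] at this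
      exact ⟨hzC, by linarith⟩
    rcases lt_or_eq_of_le him with hlt | heq
    · have hm : ζ ∈ Om h t := ⟨t + 1, Or.inl (by linarith), by rwa [min_eq_right (by linarith)]⟩
      have c1 : ContinuousAt (fun z => VV (f z)) ζ := (hv0 ζ hm).1.continuousAt
      have c2 : ∀ᶠ z in 𝓝 ζ, 1 - η < VV (f z) := c1.eventually (lt_mem_nhds (by
        simp only [VV_one (hf.lt_one ζ hm) (hzero ζ hm hre)]; linarith))
      filter_upwards [mem_nhdsWithin_of_mem_nhds c2, self_mem_nhdsWithin] with z hz hzC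
      exact lt_min (by linarith) (lt_of_lt_of_le hz (hgv z hzC))
    · rcases abs_eq (by linarith [hh.lo t] : 0 ≤ h t) |>.1 heq with e | e
      · have : ζ = ζ₁ := by apply Complex.ext <;> simp [hζ₁, hre, e]
        rw [this]
        filter_upwards [near ζ₁ r1] with z hz
        refine lt_min (by linarith) ?_
        have := mul_nonneg ε0.le (p2 z hz.1)
        simp only [hg]
        linarith [pv z hz.1, hz.2]
      · have : ζ = ζ₂ := by apply Complex.ext <;> simp [hζ₂, hre, e]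
        rw [this]
        filter_upwards [near ζ₂ r2] with z hz
        refine lt_min (by linarith) ?_
        have := mul_nonneg ε0.le (p1 z hz.1)
        simp only [hg]
        linarith [pv z hz.1, hz.2]
  · refine (min_le_right _ _).trans ?_
    have e : ε * (1 + B) = δ := by rw [hε]; field_simp
    simp only [hg, ← hB]
    nlinarith

/-- The Perron solution is a function of `AA h t`. -/
theorem perron_link {h : ℝ → ℝ} (hh : Prof h) {t : ℝ} (ht : 0 < t)
    (hlc : ∀ y, (∀ s < t, y ≤ h s) → y ≤ h t) :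
    ∃ ρ : ℝ, 0 < ρ ∧ ρ < 1 ∧ 2 * ρ / (1 + ρ ^ 2) = 2 * t * Real.exp (-AA h t) ∧
      sInf (PerronSet (CC h t) t) = VV ρ := by
  obtain ⟨f, hf, S1, S2, hpos⟩ := exists_sym hh ht
  have h0 := hh.zero_mem_CC ht
  have hU := isOpen_Om h t
  have hzero : ∀ z ∈ Om h t, z.re = t → (f z).re = 0 := by
    intro z hz hre
    have a1 := S1 _ (Om_conj z hz)
    have a2 : ((2 * t : ℝ) : ℂ) - conj z = z := by
      apply Complex.ext <;> simp [hre]; ring
    rw [a2, S2 z hz] at a1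
    have := congrArg Complex.re a1
    simp at this
    linarith
  set ρ := (f 0).re with hρ
  have e0 : f 0 = ρ := by
    have := S2 0 h0.1
    rw [map_zero] at this
    exact (Complex.conj_eq_iff_re.1 this.symm).symm
  have ρ0 : 0 < ρ := hpos 0 h0
  have ρ1 : ρ < 1 := by
    have := hf.lt_one 0 h0.1
    rwa [e0, Complex.norm_real, Real.norm_of_nonneg ρ0.le] at this
  have e1 : f ((2 * t : ℝ) : ℂ) = -ρ := by simpa [e0] using S1 0 h0.1
  have hq : ((2 * t : ℝ) : ℂ) ∈ Om h t := hh.mem t (by simp)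
  have kg := hf.isGreen hU hq
  refine ⟨ρ, ρ0, ρ1, ?_, ?_⟩
  · rw [AA, kg.HH_eq hU h0.1, neg_neg, Real.exp_log (norm_pos_iff.2 (kg.ne 0 h0.1))]
    have := congrArg norm (mul_kern f ((2 * t : ℝ) : ℂ) 0)
    rw [norm_mul, zero_sub, norm_neg, Complex.norm_real, Real.norm_of_nonneg (by linarith), e0, e1]
      at this
    rw [this]
    have e : mob (-ρ) ρ = ((2 * ρ / (1 + ρ ^ 2) : ℝ) : ℂ) := by
      simp only [mob, map_neg, conj_ofReal]; push_cast; ring
    rw [e, Complex.norm_real, Real.norm_of_nonneg (by positivity)]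
  · rw [← e0]
    have lo := perron_lower hh ht hf hpos
    obtain ⟨x, hx, -⟩ := perron_upper hh ht hlc hf hpos hzero one_pos
    refine le_antisymm (le_of_forall_pos_le_add fun δ hδ => ?_) (le_csInf ⟨x, hx⟩ lo)
    obtain ⟨y, hy, hy'⟩ := perron_upper hh ht hlc hf hpos hzero hδ
    exact (csInf_le ⟨_, lo⟩ hy).trans hy'

lemma perron_eq {h h' : ℝ → ℝ} (hh : Prof h) (hh' : Prof h') {t : ℝ} (ht : 0 < t)
    (hlc : ∀ y, (∀ s < t, y ≤ h s) → y ≤ h t) (hlc' : ∀ y, (∀ s < t, y ≤ h' s) → y ≤ h' t)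
    (he : AA h t = AA h' t) : sInf (PerronSet (CC h t) t) = sInf (PerronSet (CC h' t) t) := by
  obtain ⟨ρ, a0, a1, a2, a3⟩ := perron_link hh ht hlc
  obtain ⟨ρ', b0, b1, b2, b3⟩ := perron_link hh' ht hlc'
  rw [he, ← b2, div_eq_div_iff (by positivity) (by positivity)] at a2
  have : (ρ - ρ') * (1 - ρ * ρ') = 0 := by linear_combination a2 / 2
  have h1 : 1 - ρ * ρ' ≠ 0 := by nlinarith
  rw [a3, b3, sub_eq_zero.1 ((mul_eq_zero.1 this).resolve_right h1)]

lemma perron_zero {C : Set ℂ} (h0 : (0 : ℂ) ∈ C) {b t : ℝ} (hb : ∀ z ∈ C, z.re < b) (ht : b < t) :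
    sInf (PerronSet C t) = 0 := by
  have lo : ∀ x ∈ PerronSet C t, 0 ≤ x := by
    rintro _ ⟨u, -, u2, -, -, rfl⟩
    exact (u2 0 h0).1
  have m : (0 : ℝ) ∈ PerronSet C t := by
    refine ⟨fun _ => 0, lowerSemicontinuousOn_const, by simp, by simp, fun ζ hζ => ?_, rfl⟩
    have a1 : ζ.re ≤ b :=
      (isClosed_le Complex.continuous_re continuous_const).closure_subset_iff.2
        (fun y hy => (hb y hy).le) (frontier_subset_closure hζ.1)
    have a2 : ζ.re = t := hζ.2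
    linarith
  exact le_antisymm (csInf_le ⟨_, lo⟩ m) (le_csInf ⟨0, m⟩ lo)

lemma CC_cut {h : ℝ → ℝ} (hh : Prof h) {t b : ℝ} (htb : t ≤ b) :
    {z : ℂ | z ∈ CC h b ∧ z.re < t} = CC h t := by
  ext z
  constructor
  · rintro ⟨⟨hz, -⟩, h2⟩
    exact ⟨Om_anti hh.anti htb hz, h2⟩
  · rintro ⟨⟨s, h1, h2⟩, h3⟩
    refine ⟨⟨⟨min s t, Or.inl (lt_min ?_ h3), ?_⟩, by linarith⟩, h3⟩
    · rcases h1 with h1 | h1 <;> linarith
    · rwa [min_eq_left ((min_le_right _ _).trans htb)]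

end Pool.Agent.P.MP_41df0b_an
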