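import Pool.Agent.P.MP_41df0b_an.Domain

/-!
Potential theory for the Perron family: minimum principle and the harmonic measure of a diameter.
-/

set_option autoImplicit false

open Function Filter Metric Set Complex InnerProductSpace MeasureTheory
open scoped Topology ComplexConjugate Real

namespace Pool.Agent.P.MP_41df0b_an

lemma circleMap_mem {C : Set ℂ} {a : ℂ} {r : ℝ} (hr : 0 < r) (h : closedBall a r ⊆ C) (θ : ℝ) :
    circleMap a r θ ∈ C :=
  h (circleMap_mem_closedBall a hr.le θ)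

lemma lsc_integrable {C : Set ℂ} {u : ℂ → ℝ} (hu : LowerSemicontinuousOn u C)
    (hb : ∀ z ∈ C, 0 ≤ u z ∧ u z ≤ 1) {a : ℂ} {r : ℝ} (hr : 0 < r) (h : closedBall a r ⊆ C) :
    IntervalIntegrable (fun θ => u (circleMap a r θ)) volume 0 (2 * π) := by
  have h1 : LowerSemicontinuous (fun θ => u (circleMap a r θ)) := by
    rw [← lowerSemicontinuousOn_univ_iff]
    exact hu.comp (continuous_circleMap a r).continuousOn fun θ _ => circleMap_mem hr h θ
  refine (intervalIntegrable_const (c := (1 : ℝ))).mono_fun' h1.measurable.aestronglyMeasurable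
    (Eventually.of_forall fun θ => ?_)
  have := hb _ (circleMap_mem hr h θ)
  simp only [Real.norm_eq_abs]
  rw [abs_le]; constructor <;> linarith [this.1, this.2]

lemma harm_integral {C : Set ℂ} {g : ℂ → ℝ} (hg : HarmonicOnNhd g C) {a : ℂ} {r : ℝ} (hr : 0 < r)
    (h : closedBall a r ⊆ C) :
    IntervalIntegrable (fun θ => g (circleMap a r θ)) volume 0 (2 * π) ∧
      ∫ θ in (0 : ℝ)..(2 * π), g (circleMap a r θ) = 2 * π * g a := by
  constructor
  · exact (hg.continuousOn.comp_continuous (continuous_circleMap a r)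
      (circleMap_mem hr h)).intervalIntegrable _ _
  · have := InnerProductSpace.HarmonicOnNhd.circleAverage_eq (f := g) (c := a) (R := r)
      (by rw [abs_of_pos hr]; exact hg.mono h)
    rw [Real.circleAverage_def, smul_eq_mul] at this
    rw [← this]
    field_simp

/-- Minimum principle for lower semicontinuous functions with the super mean value property. -/
lemma min_principle {C : Set ℂ} (hC : IsOpen C) {w : ℂ → ℝ} (hw : LowerSemicontinuousOn w C)
    (hs : ∀ a r, 0 < r → closedBall a r ⊆ C →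
      IntervalIntegrable (fun θ => w (circleMap a r θ)) volume 0 (2 * π) ∧
      ∫ θ in (0 : ℝ)..(2 * π), w (circleMap a r θ) ≤ 2 * π * w a)
    {m : ℝ} {K : Set ℂ} (hK : IsCompact K) (h1 : ∀ z ∈ C, w z ≤ m → z ∈ K)
    (h2 : ∀ z ∈ K, z ∉ C → ∀ᶠ y in 𝓝[C] z, m < w y) : ∀ z ∈ C, m < w z := by
  intro z₀ hz₀
  by_contra hcon
  push Not at hcon
  set S : Set ℂ := {z | z ∈ C ∧ w z ≤ m} with hS
  have hSK : S ⊆ K := fun z hz => h1 z hz.1 hz.2
  have hSC : S ⊆ C := fun z hz => hz.1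
  have hcl : IsClosed S := by
    refine isClosed_of_closure_subset fun z hz => ?_
    have hzK : z ∈ K := hK.isClosed.closure_subset_iff.2 hSK hz
    have hne : (𝓝[S] z).NeBot := mem_closure_iff_nhdsWithin_neBot.1 hz
    have key : ¬ ∀ᶠ y in 𝓝[C] z, m < w y := by
      intro h
      obtain ⟨y, hy1, hy2⟩ := ((h.filter_mono (nhdsWithin_mono z hSC)).and
        (self_mem_nhdsWithin (s := S))).exists
      exact absurd hy2.2 (not_le.2 hy1)
    have hzC : z ∈ C := by
      by_contra h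
      exact key (h2 z hzK h)
    refine ⟨hzC, ?_⟩
    by_contra h
    exact key (hw z hzC m (not_le.1 h))
  have hSc : IsCompact S := hK.of_isClosed_subset hcl hSK
  obtain ⟨b, hb, hbmin⟩ := LowerSemicontinuousOn.exists_isMinOn
    (show S.Nonempty from ⟨z₀, hz₀, hcon⟩) hSc (hw.mono hSC)
  have hglob : ∀ z ∈ C, w b ≤ w z := by
    intro z hz
    by_cases h : w z ≤ m
    · exact hbmin ⟨hz, h⟩
    · linarith [hb.2, not_le.1 h]
  have hM := (hw.mono hSC).isCompact_inter_preimage_Iic hSc (w b)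
  obtain ⟨a, ha, hamin⟩ := hM.exists_isMinOn ⟨b, hb, le_refl (w b)⟩
    Complex.continuous_re.continuousOn
  obtain ⟨r, hr, hball⟩ := Metric.nhds_basis_closedBall.mem_iff.1 (hC.mem_nhds ha.1.1)
  obtain ⟨hi, hle⟩ := hs a r hr hball
  have hπ : w b < w (circleMap a r π) := by
    by_contra h
    push Not at h
    have := hamin ⟨⟨circleMap_mem hr hball π, h.trans hb.2⟩, h⟩
    simp [circleMap] at this
    linarith
  have hl : LowerSemicontinuous (fun θ => w (circleMap a r θ)) := by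
    rw [← lowerSemicontinuousOn_univ_iff]
    exact hw.comp (continuous_circleMap a r).continuousOn fun θ _ => circleMap_mem hr hball θ
  have hev : ∀ᶠ θ in 𝓝 π, w b < w (circleMap a r θ) := hl π (w b) hπ
  have hlt := intervalIntegral.integral_lt_integral_of_ae_le_of_measure_setOfPred_lt_ne_zero
    (f := fun _ => w b) (g := fun θ => w (circleMap a r θ)) Real.two_pi_pos.le
    intervalIntegrable_const hi
    (Eventually.of_forall fun θ => hglob _ (circleMap_mem hr hball θ)) (by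
      rw [Measure.restrict_apply' measurableSet_Ioc]
      refine (Measure.measure_pos_of_mem_nhds volume (x := π) (inter_mem hev ?_)).ne'
      exact Ioc_mem_nhds Real.pi_pos (by linarith [Real.pi_pos]))
  have hab : w a ≤ w b := ha.2
  simp only [intervalIntegral.integral_const, sub_zero, smul_eq_mul] at hlt
  nlinarith [Real.pi_pos]

/-- A Moebius map from the disc to the right half plane. -/
noncomputable def MM (w : ℂ) : ℂ := (1 + I * w) / (1 - I * w)

/-- The harmonic measure of the vertical diameter in the right half disc. -/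
noncomputable def VV (w : ℂ) : ℝ := 1 - 2 / π * arg (MM w)

lemma den_ne {w : ℂ} (hw : ‖w‖ < 1) : 1 - I * w ≠ 0 := by
  intro h
  have h1 : I * w = 1 := by linear_combination -h
  have := congrArg norm h1
  simp at this
  linarith

lemma num_ne {w : ℂ} (hw : ‖w‖ < 1) : 1 + I * w ≠ 0 := by
  have := den_ne (w := -w) (by simpa using hw)
  simpa using this

lemma MM_re (w : ℂ) : (MM w).re = (1 - ‖w‖ ^ 2) / ‖1 - I * w‖ ^ 2 := by
  rw [MM, Complex.div_re, ← add_div, Complex.sq_norm, Complex.sq_norm]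
  congr 1
  simp [normSq_apply]; ring

lemma MM_im (w : ℂ) : (MM w).im = 2 * w.re / ‖1 - I * w‖ ^ 2 := by
  rw [MM, Complex.div_im, ← sub_div, Complex.sq_norm]
  congr 1
  simp; ring

lemma MM_re_pos {w : ℂ} (hw : ‖w‖ < 1) : 0 < (MM w).re := by
  rw [MM_re]
  have := norm_pos_iff.2 (den_ne hw)
  apply div_pos _ (by positivity)
  nlinarith [norm_nonneg w]

lemma arg_MM {w : ℂ} (hw : ‖w‖ < 1) (h0 : 0 ≤ w.re) : 0 ≤ arg (MM w) ∧ arg (MM w) < π / 2 :=
  ⟨arg_nonneg_iff.2 (by rw [MM_im]; positivity), arg_lt_pi_div_two_iff.2 (Or.inl (MM_re_pos hw))⟩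

lemma VV_bounds {w : ℂ} (hw : ‖w‖ < 1) (h0 : 0 ≤ w.re) : 0 ≤ VV w ∧ VV w ≤ 1 := by
  obtain ⟨a, b⟩ := arg_MM hw h0
  have hπ := Real.pi_pos
  constructor
  · rw [VV, sub_nonneg, div_mul_eq_mul_div, div_le_one hπ]; linarith
  · rw [VV]
    have : 0 ≤ 2 / π * arg (MM w) := by positivity
    linarith

lemma VV_one {w : ℂ} (hw : ‖w‖ < 1) (h0 : w.re = 0) : VV w = 1 := by
  rw [VV, arg_eq_zero_iff.2 ⟨(MM_re_pos hw).le, by rw [MM_im, h0]; simp⟩]; simp

lemma one_add_sq (w : ℂ) : 1 + w ^ 2 = (1 + I * w) * (1 - I * w) := by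
  linear_combination (w ^ 2) * I_sq

lemma VV_proper {ε : ℝ} (hε : 0 < ε) : ∃ r < 1, ∀ w : ℂ, ‖w‖ < 1 → 0 ≤ w.re → ε ≤ VV w →
    -Real.log ‖(1 + w ^ 2) / 2‖ ≤ 1 / ε → ‖w‖ ≤ r := by
  by_cases hε1 : 1 < ε
  · exact ⟨0, one_pos, fun w hw h0 h _ => absurd ((VV_bounds hw h0).2) (by linarith)⟩
  push Not at hε1
  have hπ := Real.pi_pos
  have hc : 0 < Real.cos (π / 2 * (1 - ε)) :=
    Real.cos_pos_of_mem_Ioo ⟨by nlinarith, by nlinarith⟩
  set c := Real.cos (π / 2 * (1 - ε)) with hcdef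
  have he := Real.exp_pos (-(1 / ε))
  refine ⟨1 - c * Real.exp (-(1 / ε)), by nlinarith [mul_pos hc he], fun w hw h0 h1 h2 => ?_⟩
  obtain ⟨a, b⟩ := arg_MM hw h0
  have h3 : arg (MM w) ≤ π / 2 * (1 - ε) := by
    rw [VV] at h1
    have : 2 / π * arg (MM w) ≤ 1 - ε := by linarith
    rw [div_mul_eq_mul_div, div_le_iff₀ hπ] at this
    linarith
  have h4 : c ≤ Real.cos (arg (MM w)) :=
    Real.cos_le_cos_of_nonneg_of_le_pi a (by nlinarith) h3
  have d0 := norm_pos_iff.2 (den_ne hw)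
  have n0 := norm_pos_iff.2 (num_ne hw)
  have hM : MM w ≠ 0 := div_ne_zero (num_ne hw) (den_ne hw)
  have h5 : Real.cos (arg (MM w)) = (1 - ‖w‖ ^ 2) / (‖1 + I * w‖ * ‖1 - I * w‖) := by
    rw [cos_arg hM, MM_re, MM, norm_div]; field_simp
  have h6 : Real.exp (-(1 / ε)) ≤ ‖1 + I * w‖ * ‖1 - I * w‖ / 2 := by
    have e : ‖(1 + w ^ 2) / 2‖ = ‖1 + I * w‖ * ‖1 - I * w‖ / 2 := by
      rw [one_add_sq, norm_div, norm_mul]; simp
    rw [e] at h2
    rw [← Real.le_log_iff_exp_le (by positivity)]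
    linarith
  rw [h5, le_div_iff₀ (by positivity)] at h4
  nlinarith [sq_nonneg (1 - ‖w‖), mul_le_mul_of_nonneg_left h6 hc.le]

lemma harmonic_VV {U : Set ℂ} (hU : IsOpen U) {f : ℂ → ℂ} (hd : DifferentiableOn ℂ f U)
    (hl : ∀ z ∈ U, ‖f z‖ < 1) : HarmonicOnNhd (fun z => VV (f z)) U := by
  intro z hz
  have h1 : DifferentiableOn ℂ (fun z => Complex.log (MM (f z))) U := by
    refine DifferentiableOn.clog ?_ fun y hy => Or.inl (MM_re_pos (hl y hy))
    exact ((hd.const_mul I).const_add 1).div ((hd.const_mul I).const_sub 1)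
      fun y hy => den_ne (hl y hy)
  have h2 := (h1.analyticAt (hU.mem_nhds hz)).harmonicAt_im
  have h3 := (harmonicAt_const (x := z) (1 : ℝ)).sub (h2.const_smul (c := 2 / π))
  convert h3 using 1
  funext y
  simp [VV, Complex.log_im]

lemma harmonic_bar {U : Set ℂ} (hU : IsOpen U) {f : ℂ → ℂ} (hd : DifferentiableOn ℂ f U)
    (hl : ∀ z ∈ U, ‖f z‖ < 1) :
    HarmonicOnNhd (fun z => -Real.log ‖(1 + f z ^ 2) / 2‖) U := by
  intro z hz
  have h1 : DifferentiableOn ℂ (fun z => (1 + f z ^ 2) / 2) U :=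
    ((hd.pow 2).const_add 1).div_const 2
  refine ((h1.analyticAt (hU.mem_nhds hz)).harmonicAt_log_norm ?_).neg
  rw [one_add_sq]
  exact div_ne_zero (mul_ne_zero (num_ne (hl z hz)) (den_ne (hl z hz))) two_ne_zero

lemma bar_nonneg {w : ℂ} (hw : ‖w‖ < 1) : 0 ≤ -Real.log ‖(1 + w ^ 2) / 2‖ := by
  rw [neg_nonneg]
  apply Real.log_nonpos (norm_nonneg _)
  have := norm_add_le (1 : ℂ) (w ^ 2)
  rw [norm_one, norm_pow] at this
  rw [norm_div, div_le_one (by simp)]
  simp only [Complex.norm_ofNat]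
  nlinarith [norm_nonneg w]

/-- A barrier at the point `ζ` for the half plane on the left of `ζ`. -/
noncomputable def bar2 (ζ z : ℂ) : ℝ := Real.log ‖z - ζ - 2‖ - Real.log ‖z - ζ‖

lemma bar2_nonneg {ζ z : ℂ} (h : z.re < ζ.re) : 0 ≤ bar2 ζ z := by
  have h0 : z - ζ ≠ 0 := fun e => by rw [sub_eq_zero.1 e] at h; exact lt_irrefl _ h
  rw [bar2, sub_nonneg]
  apply Real.log_le_log (norm_pos_iff.2 h0)
  refine le_of_sq_le_sq ?_ (norm_nonneg _)
  simp only [Complex.sq_norm, normSq_apply, sub_re, sub_im, re_ofNat, im_ofNat]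
  nlinarith

lemma bar2_harmonic {ζ z : ℂ} (h : z.re < ζ.re) : HarmonicAt (bar2 ζ) z := by
  have h0 : z - ζ ≠ 0 := fun e => by rw [sub_eq_zero.1 e] at h; exact lt_irrefl _ h
  have h1 : z - ζ - 2 ≠ 0 := fun e => by
    have := congrArg Complex.re e
    simp at this
    linarith
  exact (AnalyticAt.harmonicAt_log_norm (f := fun z => z - ζ - 2) (by fun_prop) h1).sub
    (AnalyticAt.harmonicAt_log_norm (f := fun z => z - ζ) (by fun_prop) h0)

lemma bar2_large {ζ z : ℂ} (h : z.re < ζ.re) {a : ℝ} (hz : ‖z - ζ‖ < Real.exp (-a)) :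
    a ≤ bar2 ζ z := by
  have h0 : z - ζ ≠ 0 := fun e => by rw [sub_eq_zero.1 e] at h; exact lt_irrefl _ h
  have h1 : Real.log ‖z - ζ‖ ≤ -a := (Real.log_le_iff_le_exp (norm_pos_iff.2 h0)).2 hz.le
  have h2 : 0 ≤ Real.log ‖z - ζ - 2‖ := by
    apply Real.log_nonneg
    have := Complex.abs_re_le_norm (z - ζ - 2)
    simp only [sub_re, re_ofNat] at this
    linarith [neg_le_abs (z.re - ζ.re - 2)]
  rw [bar2]
  linarith

lemma IsRM.unique {U : Set ℂ} (hU : IsOpen U) (hc : IsPreconnected U) {f g : ℂ → ℂ}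
    (hf : IsRM U f) (hg : IsRM U g) {q : ℂ} (hq : q ∈ U) (h1 : f q = 0) (h2 : g q = 0)
    (h3 : deriv f q = deriv g q) : EqOn f g U := by
  have kf := hf.isGreen hU hq
  have kg := hg.isGreen hU hq
  have hn : ∀ z ∈ U, ‖kern f q z / kern g q z‖ = 1 := fun z hz => by
    rw [norm_div, kf.norm_eq hU kg hz, div_self (norm_ne_zero_iff.2 (kg.ne z hz))]
  have hQ := Complex.eqOn_of_isPreconnected_of_isMaxOn_norm hc hU (kf.diff.div kg.diff kg.ne) hq
    (fun z hz => by simp only [mem_ofPred_eq, comp_apply, Pi.div_apply, hn z hz, hn q hq, le_refl])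
  intro z hz
  have e1 := hQ hz
  have e2 : kern f q q = kern g q q := by simp [kern, h1, h2, h3]
  simp only [Pi.div_apply, const_apply, e2, div_self (kg.ne q hq),
    div_eq_one_iff_eq (kg.ne z hz)] at e1
  have e3 := mul_kern f q z
  rw [e1, mul_kern, h1, h2] at e3
  simpa [mob] using e3.symm

lemma IsRM.const_mul {U : Set ℂ} (hU : IsOpen U) {f : ℂ → ℂ} (hf : IsRM U f) {c : ℂ}
    (hc : ‖c‖ = 1) : IsRM U (fun z => c * f z) := by
  have c0 : c ≠ 0 := by rintro rfl; simp at hc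
  refine ⟨hf.diff.const_mul c, fun z hz w hw h => hf.inj hz hw (mul_left_cancel₀ c0 h),
    fun z hz => by simpa [hc] using hf.lt_one z hz, fun z hz => ?_,
    fun r hr => by simpa [hc] using hf.cpt r hr⟩
  rw [deriv_const_mul _ (hf.diff.differentiableAt (hU.mem_nhds hz))]
  exact mul_ne_zero c0 (hf.dne z hz)

lemma IsRM.reflect {U : Set ℂ} {f : ℂ → ℂ} (hf : IsRM U f) {c : ℂ}
    (hc : ∀ z ∈ U, c - z ∈ U) : IsRM U (fun z => f (c - z)) := by
  refine ⟨hf.diff.comp (differentiableOn_id.const_sub c) hc,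
    fun z hz w hw h => sub_right_injective (hf.inj (hc z hz) (hc w hw) h),
    fun z hz => hf.lt_one _ (hc z hz), fun z hz => ?_, fun r hr => ?_⟩
  · rw [deriv_comp_const_sub]
    exact neg_ne_zero.2 (hf.dne _ (hc z hz))
  · have := (Homeomorph.subLeft c).isCompact_preimage.2 (hf.cpt r hr)
    convert this using 1
    ext z
    simp only [mem_ofPred_eq, mem_preimage, Homeomorph.subLeft_apply]
    exact ⟨fun h => ⟨hc z h.1, h.2⟩, fun h => ⟨by simpa using hc _ h.1, h.2⟩⟩

lemma IsRM.conj {U : Set ℂ} (hU : IsOpen U) {f : ℂ → ℂ} (hf : IsRM U f)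
    (hc : ∀ z ∈ U, conj z ∈ U) : IsRM U (conj ∘ f ∘ conj) := by
  refine ⟨fun z hz => ?_, fun z hz w hw h => ?_, fun z hz => by simpa using hf.lt_one _ (hc z hz),
    fun z hz => ?_, fun r hr => ?_⟩
  · have := (hf.diff.differentiableAt (hU.mem_nhds (hc z hz))).conj_conj
    rw [Complex.conj_conj] at this
    exact this.differentiableWithinAt
  · have h1 : f (conj z) = f (conj w) := (starRingEnd ℂ).injective h
    exact (starRingEnd ℂ).injective (hf.inj (hc z hz) (hc w hw) h1)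
  · rw [deriv_conj_conj]
    simpa using hf.dne _ (hc z hz)
  · have := Complex.conjCLE.toHomeomorph.isCompact_preimage.2 (hf.cpt r hr)
    convert this using 1
    ext z
    simp only [mem_ofPred_eq, mem_preimage, ContinuousLinearEquiv.coe_toHomeomorph,
      conjCLE_apply, comp_apply, Complex.norm_conj]
    exact ⟨fun h => ⟨hc z h.1, h.2⟩, fun h => ⟨by simpa using hc _ h.1, h.2⟩⟩

end Pool.Agent.P.MP_41df0b_an
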